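import Pool.Agent.TH526.DS.Defs

/-!
# Extensions whose Galois group forms a Camina triple: definitions

`X` is a smooth projective variety over a number field `K`; `L`, `M`, `F` are finite extensions of `K`,
`M ⊆ F`, and `M` and `F` are Galois over `K`.
-/

set_option autoImplicit false

namespace Pool.Agent.TH526.DS

open NumberField IsDedekindDomain Filter Topology Polynomial
open Pool.Agent.W353.EH (edgePoint size HasOrder)
open Pool.Agent.W353.TD (rank Defect)
open Pool.Agent.W353.AT (IsTwistedSystem TwistOrder TwistDefect twistRank)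

section
variable {K : Type} [Field K]

/-- For `σ`, `τ` in the absolute Galois group of `K` such that `σ` is not the identity on `L` and `τ` is
the identity on `M`, the restrictions of `σ` and `σ τ` to `F` are conjugate in `Gal(F/K)`.  (For
`G = Gal(F/K)`, `H = Gal(F/L)`, `N = Gal(F/M)`: every `g ∈ G` outside `H` is conjugate to `g n` for all
`n ∈ N`.) -/
def IsCaminaTriple (L M F : IntermediateField K (AlgebraicClosure K)) : Prop :=
  ∀ σ τ : Gal(AlgebraicClosure K/K), (∃ x ∈ L, σ x ≠ x) → (∀ x ∈ M, τ x = x) →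
    ∃ γ : Gal(AlgebraicClosure K/K), ∀ x ∈ F, γ (σ (γ⁻¹ x)) = σ (τ x)

/-- `χ` is an irreducible representation of `Gal(F/K)` that is not trivial on `Gal(F/M)`. -/
def IsNew (M F : IntermediateField K (AlgebraicClosure K)) {n : ℕ}
    (χ : Representation ℂ Gal(AlgebraicClosure K/K) (Fin n → ℂ)) : Prop :=
  χ.IsIrreducible ∧ (∀ u ∈ F.fixingSubgroup, χ u = 1) ∧ ∃ a ∈ M.fixingSubgroup, χ a ≠ 1

variable [NumberField K] {n : ℕ}

/-- Let `s = N - dim V`, and let `L`, `M`, `F` be a Camina triple with `[L : K] > s²`.  Let `χ` be an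
irreducible representation of `Gal(F/K)` that is not trivial on `Gal(F/M)`.
* (No continuation is assumed here.)  For every `η > 0` and all small `ε > 0` the absolute value of
`log |L(H^{2m}(X) ⊗ χ, m + 1 + ε)| / log(1/ε) - twistRank ρ χ` is at most `s / √[L : K] + η`; the defect
of `χ`, if it exists, is `0`.
* If all these `χ` have a defect (which is then `0`), then the difference between the values of
`log |L(m + 1 + ε)| / log(1/ε) - rank` for `L(H^{2m}(X_F), s)` and `L(H^{2m}(X_M), s)` tends to `0`, and the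
defects over `F` and over `M`, if they exist, are equal. -/
def CaminaDefects (X : Set (MvPolynomial (Fin n) (𝓞 K))) (d m N : ℕ) {V : Type}
    [AddCommGroup V] [Module ℚ V] (ρ : Representation ℚ Gal(AlgebraicClosure K/K) V) : Prop :=
  ∀ (L M F : IntermediateField K (AlgebraicClosure K)) [NumberField M] [NumberField F],
    IsGalois K M → IsGalois K F → M ≤ F → IsCaminaTriple L M F →
    (N - Module.finrank ℚ V) ^ 2 < Module.finrank K L →
    (∀ (r : ℕ) (χ : Representation ℂ Gal(AlgebraicClosure K/K) (Fin r → ℂ)), IsNew M F χ →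
      (∀ B : HeightOneSpectrum (𝓞 K) → ℂ[X], IsTwistedSystem X d (2 * m) N χ 0 B →
        ∀ η : ℝ, 0 < η → ∀ᶠ ε : ℝ in 𝓝[>] 0, |size (2 * m) 0 B ε - twistRank ρ χ| ≤
          ((N - Module.finrank ℚ V : ℕ) : ℝ) / Real.sqrt (Module.finrank K L) + η) ∧
      ∀ δ : ℤ, TwistDefect X d m N ρ χ δ → δ = 0) ∧
    ((∀ (r : ℕ) (χ : Representation ℂ Gal(AlgebraicClosure K/K) (Fin r → ℂ)), IsNew M F χ →
        ∃ δ : ℤ, TwistDefect X d m N ρ χ δ) →
      (∀ (B : HeightOneSpectrum (𝓞 F) → ℂ[X]) (B' : HeightOneSpectrum (𝓞 M) → ℂ[X]),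
        W353.EF.IsEulerSystem X d (2 * m) N B → W353.EF.IsEulerSystem X d (2 * m) N B' →
        Tendsto (fun ε : ℝ => (W353.EF.size (2 * m) B ε - rank ρ F) -
          (W353.EF.size (2 * m) B' ε - rank ρ M)) (𝓝[>] 0) (𝓝 0)) ∧
      ∀ δ δ' : ℤ, Defect X d m N ρ F δ → Defect X d m N ρ M δ' → δ = δ')

/-- Let `L`, `M`, `F` be a Camina triple and `τ` real, with `[L : K] > N²` (`[L : K] > (2N/π)²` is enough
if `τ ≠ 0`).  Let `χ` be an irreducible representation of `Gal(F/K)` that is not trivial on `Gal(F/M)`.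
* (No continuation is assumed here.)  For every `η > 0` and all small `ε > 0` the absolute value of
`log |L(H^i(X) ⊗ χ, i/2 + 1 + iτ + ε)| / log(1/ε)` is at most `N / √[L : K] + η`.  If there is a
meromorphic continuation to a neighbourhood of `i/2 + 1 + iτ`, then it has neither a zero nor a pole
there.
* If there are such continuations for all these `χ`, then the difference between the values of
`log |L(i/2 + 1 + iτ + ε)| / log(1/ε)` for `L(H^i(X_F), s)` and `L(H^i(X_M), s)` tends to `0`, and the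
orders of these two functions at `i/2 + 1 + iτ`, if they exist, are equal. -/
def CaminaOrders (X : Set (MvPolynomial (Fin n) (𝓞 K))) (d i N : ℕ) : Prop :=
  ∀ (L M F : IntermediateField K (AlgebraicClosure K)) [NumberField M] [NumberField F] (τ : ℝ),
    IsGalois K M → IsGalois K F → M ≤ F → IsCaminaTriple L M F →
    ((N : ℝ) * heightFactor τ) ^ 2 < Module.finrank K L →
    (∀ (r : ℕ) (χ : Representation ℂ Gal(AlgebraicClosure K/K) (Fin r → ℂ)), IsNew M F χ →
      (∀ B : HeightOneSpectrum (𝓞 K) → ℂ[X], IsTwistedSystem X d i N χ τ B →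
        ∀ η : ℝ, 0 < η → ∀ᶠ ε : ℝ in 𝓝[>] 0, |size i τ B ε| ≤
          (N : ℝ) * heightFactor τ / Real.sqrt (Module.finrank K L) + η) ∧
      ∀ k : ℤ, TwistOrder X d i N χ τ k → k = 0) ∧
    ((∀ (r : ℕ) (χ : Representation ℂ Gal(AlgebraicClosure K/K) (Fin r → ℂ)), IsNew M F χ →
        ∃ k : ℤ, TwistOrder X d i N χ τ k) →
      (∀ (B : HeightOneSpectrum (𝓞 F) → ℂ[X]) (B' : HeightOneSpectrum (𝓞 M) → ℂ[X]),
        W353.EH.IsEulerSystem X d i N τ B → W353.EH.IsEulerSystem X d i N τ B' →
        Tendsto (fun ε : ℝ => size i τ B ε - size i τ B' ε) (𝓝[>] 0) (𝓝 0)) ∧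
      ∀ k k' : ℤ, W353.EH.OrderOver X d i N F τ k → W353.EH.OrderOver X d i N M τ k' → k = k')

end

end Pool.Agent.TH526.DS
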