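import Pool.Agent.TH526.DS.Van
import Pool.Agent.TH526.DS.CamDefs

/-! Extensions for which many irreducible characters of the Galois group have many zeros. -/

set_option autoImplicit false

namespace Pool.Agent.TH526.DS

open Complex Filter Topology ComplexConjugate NumberField IsDedekindDomain Polynomial
  Pool.Agent.W401.Cheb Pool.Agent.W540.BE Pool.Agent.W353.L1 Pool.Agent.W353.AT
open Pool.Agent.W353.NF (act act_apply fixn fixn_inv cz abs_cz fixn_le SzH vx)
open Pool.Agent.W353.TP (HX)

section
variable {α : Type*}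

theorem list_split (p : α → Prop) [DecidablePred p] (f : α → ℂ) (L : List α) :
    (L.map f).sum = ((L.filter p).map f).sum + ((L.filter fun x => ¬ p x).map f).sum := by
  induction L with
  | nil => simp
  | cons a L ih =>
    by_cases h : p a
    · rw [List.map_cons, List.sum_cons, ih, List.filter_cons_of_pos (by simpa using h),
        List.filter_cons_of_neg (by simpa using h), List.map_cons, List.sum_cons]
      ring
    · rw [List.map_cons, List.sum_cons, ih, List.filter_cons_of_neg (by simpa using h),
        List.filter_cons_of_pos (by simpa using h), List.map_cons, List.sum_cons]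
      ring

theorem list_swap {ι : Type*} (S : Finset ι) (w : ι → ℂ) (h : α → ι → ℂ) (L : List α) :
    ∑ q ∈ S, w q * (L.map fun x => h x q).sum = (L.map fun x => ∑ q ∈ S, w q * h x q).sum := by
  induction L with
  | nil => simp
  | cons a L ih =>
    rw [List.map_cons, List.sum_cons, ← ih, ← Finset.sum_add_distrib]
    refine Finset.sum_congr rfl fun q _ => ?_
    rw [List.map_cons, List.sum_cons]
    ring

end

section
variable {K : Type} [Field K] [NumberField K]

theorem fixn_galois (F : IntermediateField K (AlgebraicClosure K)) [NumberField F]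
    (hF : IsGalois K F) (g : GK K) [Decidable (g ∈ F.fixingSubgroup)] :
    fixn K F g = if g ∈ F.fixingSubgroup then Module.finrank K F else 0 := by
  classical
  have h1 : ∀ i : F →ₐ[K] AlgebraicClosure K, act K F g i = i ↔ g ∈ F.fixingSubgroup := by
    intro i
    rw [act_fix_iff, AlgHom.fieldRange_of_normal]
  unfold fixn
  split_ifs with h
  · have h2 : Nat.card {i : F →ₐ[K] AlgebraicClosure K // act K F g i = i} =
        Nat.card (F →ₐ[K] AlgebraicClosure K) :=
      Nat.card_congr (Equiv.subtypeUnivEquiv fun i => (h1 i).2 h)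
    rw [h2, Nat.card_eq_fintype_card]
    exact AlgHom.card K F (AlgebraicClosure K)
  · rw [Nat.card_eq_zero]
    left
    exact ⟨fun i => h ((h1 i.1).1 i.2)⟩

theorem fd_of_nf (F : IntermediateField K (AlgebraicClosure K)) [NumberField F] :
    FiniteDimensional K F := FiniteDimensional.right ℚ K F

theorem normal_fix (F : IntermediateField K (AlgebraicClosure K)) [NumberField F]
    (hF : IsGalois K F) : IsOpen (F.fixingSubgroup : Set (GK K)) ∧ F.fixingSubgroup.Normal := by
  have h1 := fd_of_nf F
  exact (InfiniteGalois.isOpen_and_normal_iff_finite_and_isGalois F).2 ⟨h1, hF⟩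

open Classical in
/-- **The non-trivial part of the permutation character.** -/
theorem exists_list {M F : IntermediateField K (AlgebraicClosure K)} [NumberField M]
    [NumberField F] (hM : IsGalois K M) (hF : IsGalois K F) (hMF : M ≤ F) :
    ∃ L : List (MRep (GK K)), (∀ x ∈ L, x.2.IsIrreducible ∧ (∀ u ∈ F.fixingSubgroup, x.2 u = 1) ∧
      ∃ a ∈ M.fixingSubgroup, x.2 a ≠ 1) ∧
      ∀ g, (fixn K F g : ℂ) - fixn K M g = (L.map fun x => x.2.character g).sum := by
  obtain ⟨hUo, hUn⟩ := normal_fix F hF
  obtain ⟨hAo, hAn⟩ := normal_fix M hM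
  set U : Subgroup (GK K) := F.fixingSubgroup with hU
  set A : Subgroup (GK K) := M.fixingSubgroup with hA
  have hUA : U ≤ A := IntermediateField.fixingSubgroup_le hMF
  have hfin : Finite (GK K ⧸ U) := Subgroup.quotient_finite_of_isOpen U hUo
  let _ : Fintype (GK K ⧸ U) := Fintype.ofFinite _
  have hact : ∀ u ∈ U, act K F u = 1 := by
    intro u hu
    refine Equiv.ext fun i => ?_
    change act K F u i = i
    rw [act_fix_iff, AlgHom.fieldRange_of_normal]
    exact hu
  obtain ⟨L, hL, hfix⟩ := fix_decomp K F U hact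
  set p : MRep (GK K) → Prop := fun x => ∀ a ∈ A, x.2 a = 1 with hp
  refine ⟨L.filter fun x => ¬ p x, fun x hx => ?_, fun g => ?_⟩
  · rw [List.mem_filter] at hx
    obtain ⟨h1, h2⟩ := hx
    refine ⟨(hL x h1).1, (hL x h1).2, ?_⟩
    have h3 : ¬ p x := by simpa using h2
    rw [hp] at h3
    push Not at h3
    exact h3
  · -- the average over `A`
    set Ab : Subgroup (GK K ⧸ U) := A.map (QuotientGroup.mk' U) with hAb
    have hAbn : Ab.Normal := hAn.map _ (QuotientGroup.mk'_surjective U)
    have hmem : ∀ g : GK K, (QuotientGroup.mk g : GK K ⧸ U) ∈ Ab ↔ g ∈ A := by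
      intro g
      rw [hAb, Subgroup.mem_map]
      constructor
      · rintro ⟨a, ha, hag⟩
        have h1 : (QuotientGroup.mk a : GK K ⧸ U) = QuotientGroup.mk g := hag
        rw [QuotientGroup.eq] at h1
        have h2 := A.mul_mem ha (hUA h1)
        rwa [mul_inv_cancel_left] at h2
      · intro h
        exact ⟨g, h, rfl⟩
    set w : GK K ⧸ U → ℂ := fun q => if q ∈ Ab then 1 else 0 with hw
    set cA : ℂ := ∑ q, w q with hcA
    have hcard : cA = Nat.card Ab := by
      rw [hcA, hw]
      simp only
      rw [Finset.sum_boole, Nat.card_eq_fintype_card, Fintype.card_subtype]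
    have hcA0 : cA ≠ 0 := by
      rw [hcard]
      exact_mod_cast Nat.card_pos.ne'
    have hindex : Ab.index = A.index :=
      Subgroup.index_map_eq A (QuotientGroup.mk'_surjective U)
        (by rw [QuotientGroup.ker_mk']; exact hUA)
    have hFK : Module.finrank K F = Nat.card (GK K ⧸ U) := by
      rw [IntermediateField.finrank_eq_fixingSubgroup_index]
      rfl
    have hMK : Module.finrank K M = Ab.index := by
      rw [IntermediateField.finrank_eq_fixingSubgroup_index, hindex]
    have hmul : cA * (Module.finrank K M : ℂ) = Module.finrank K F := by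
      rw [hcard, hFK, hMK, ← Ab.card_mul_index]
      push_cast
      rfl
    -- the characters
    have hchar : ∀ x ∈ L, ∀ q : GK K ⧸ U, x.2.character (g * q.out) = if hx : (∀ u ∈ U, x.2 u = 1)
        then (qrep U x.2 hx).character (QuotientGroup.mk g * q) else 0 := by
      intro x hx q
      rw [dif_pos (hL x hx).2]
      conv_rhs => rw [← QuotientGroup.out_eq' q]
      rfl
    have hav : ∀ x ∈ L, ∑ q, w q * x.2.character (g * q.out) =
        if p x then cA * x.2.character g else 0 := by
      intro x hx
      by_cases h : p x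
      · rw [if_pos h, hcA, Finset.sum_mul]
        refine Finset.sum_congr rfl fun q _ => ?_
        by_cases hq : q ∈ Ab
        · have h1 : q.out ∈ A := by
            rw [← hmem, QuotientGroup.out_eq']
            exact hq
          have h2 : x.2.character (g * q.out) = x.2.character g := by
            unfold Representation.character
            rw [map_mul, h _ h1, mul_one]
          rw [h2]
        · have : w q = 0 := if_neg hq
          rw [this, zero_mul, zero_mul]
      · rw [if_neg h]
        have h3 : ∃ a ∈ Ab, (qrep U x.2 (hL x hx).2) a ≠ 1 := by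
          rw [hp] at h
          push Not at h
          obtain ⟨a, ha, hane⟩ := h
          exact ⟨QuotientGroup.mk a, (hmem a).2 ha, hane⟩
        have h4 := char_sum_zero (qrep U x.2 (hL x hx).2) (qrep_irr U x.2 (hL x hx).2 (hL x hx).1)
          Ab h3 (QuotientGroup.mk g)
        rw [← h4]
        refine Finset.sum_congr rfl fun q _ => ?_
        rw [hchar x hx q, dif_pos (hL x hx).2]
    have hsum1 : ∑ q, w q * (fixn K F (g * q.out) : ℂ) =
        cA * ((L.filter p).map fun x => x.2.character g).sum := by
      have h1 : ∑ q, w q * (fixn K F (g * q.out) : ℂ) =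
          ∑ q, w q * (L.map fun x => x.2.character (g * q.out)).sum :=
        Finset.sum_congr rfl fun q _ => by rw [hfix]
      rw [h1, list_swap Finset.univ w (fun x q => x.2.character (g * q.out)) L]
      have h2 : ∀ L' : List (MRep (GK K)), (∀ x ∈ L', x ∈ L) →
          (L'.map fun x => ∑ q, w q * x.2.character (g * q.out)).sum =
          cA * ((L'.filter p).map fun x => x.2.character g).sum := by
        intro L' hL'
        induction L' with
        | nil => simp
        | cons a L' ih =>
          rw [List.map_cons, List.sum_cons, ih fun y hy => hL' y (List.mem_cons_of_mem _ hy),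
            hav a (hL' a List.mem_cons_self)]
          by_cases h : p a
          · rw [if_pos h, List.filter_cons_of_pos (by simpa using h), List.map_cons,
              List.sum_cons]
            ring
          · rw [if_neg h, List.filter_cons_of_neg (by simpa using h), zero_add]
      exact h2 L fun x hx => hx
    have hsum2 : ∑ q, w q * (fixn K F (g * q.out) : ℂ) = cA * fixn K M g := by
      have h1 : ∀ q : GK K ⧸ U, w q * (fixn K F (g * q.out) : ℂ) =
          if q = (QuotientGroup.mk g)⁻¹ then w q * (Module.finrank K F : ℂ) else 0 := by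
        intro q
        have h2 : g * q.out ∈ U ↔ q = (QuotientGroup.mk g)⁻¹ := by
          have h3 : (QuotientGroup.mk (g * q.out) : GK K ⧸ U) = QuotientGroup.mk g * q := by
            rw [QuotientGroup.mk_mul, QuotientGroup.out_eq']
          rw [← QuotientGroup.eq_one_iff, h3, mul_eq_one_iff_inv_eq, eq_comm]
        rw [fixn_galois F hF]
        by_cases h3 : g * q.out ∈ U
        · rw [if_pos h3, if_pos (h2.1 h3)]
        · rw [if_neg h3, if_neg fun h => h3 (h2.2 h)]
          simp
      rw [Finset.sum_congr rfl fun q _ => h1 q, Finset.sum_ite_eq', if_pos (Finset.mem_univ _),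
        fixn_galois M hM]
      by_cases h : g ∈ A
      · have h3 : w (QuotientGroup.mk g)⁻¹ = 1 := if_pos (Ab.inv_mem ((hmem g).2 h))
        rw [h3, if_pos h, one_mul, ← hmul]
      · have h3 : w (QuotientGroup.mk g)⁻¹ = 0 := by
          refine if_neg fun h4 => h ((hmem g).1 ?_)
          have := Ab.inv_mem h4
          rwa [inv_inv] at this
        rw [h3, if_neg h]
        simp
    have h5 : (fixn K M g : ℂ) = ((L.filter p).map fun x => x.2.character g).sum := by
      rw [hsum1] at hsum2
      exact (mul_left_cancel₀ hcA0 hsum2).symm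
    rw [h5, hfix g, list_split p]
    ring


/-- **New characters vanish outside the subgroup of `L`.** -/
theorem camina_vanish {L M F : IntermediateField K (AlgebraicClosure K)} [NumberField M]
    [NumberField F] (hM : IsGalois K M) (hF : IsGalois K F) (hMF : M ≤ F)
    (hC : IsCaminaTriple L M F) {n : ℕ} (χ : Representation ℂ (GK K) (Fin n → ℂ))
    (hχ : IsNew M F χ) (g : GK K) (hg : g ∉ L.fixingSubgroup) : χ.character g = 0 := by
  classical
  obtain ⟨hirr, htriv, hne⟩ := hχ
  obtain ⟨hUo, hUn⟩ := normal_fix F hF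
  obtain ⟨hAo, hAn⟩ := normal_fix M hM
  set U : Subgroup (GK K) := F.fixingSubgroup with hU
  set A : Subgroup (GK K) := M.fixingSubgroup with hA
  have hfin : Finite (GK K ⧸ U) := Subgroup.quotient_finite_of_isOpen U hUo
  let _ : Fintype (GK K ⧸ U) := Fintype.ofFinite _
  set Ab : Subgroup (GK K ⧸ U) := A.map (QuotientGroup.mk' U) with hAb
  have hAbn : Ab.Normal := hAn.map _ (QuotientGroup.mk'_surjective U)
  have h3 : ∃ a ∈ Ab, (qrep U χ htriv) a ≠ 1 := by
    obtain ⟨a, ha, hane⟩ := hne
    exact ⟨QuotientGroup.mk a, ⟨a, ha, rfl⟩, hane⟩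
  have h4 := vanish (qrep U χ htriv) (qrep_irr U χ htriv hirr) Ab h3 (QuotientGroup.mk g)
    (fun a ha => by
      obtain ⟨t, ht, rfl⟩ := ha
      have h5 : ∃ x ∈ L, g x ≠ x := by
        rw [IntermediateField.mem_fixingSubgroup_iff] at hg
        push Not at hg
        exact hg
      have h6 : ∀ x ∈ M, t x = x := (IntermediateField.mem_fixingSubgroup_iff M t).1 ht
      obtain ⟨γ, hγ⟩ := hC g t h5 h6
      refine ⟨QuotientGroup.mk γ, ?_⟩
      change (QuotientGroup.mk (γ * g * γ⁻¹) : GK K ⧸ U) = QuotientGroup.mk (g * t)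
      rw [QuotientGroup.eq, hU, IntermediateField.mem_fixingSubgroup_iff]
      intro x hx
      have h7 : (γ * g * γ⁻¹) x = (g * t) x := hγ x hx
      change (γ * g * γ⁻¹)⁻¹ ((g * t) x) = x
      rw [← h7]
      exact (γ * g * γ⁻¹).symm_apply_apply x)
  exact h4

/-- the mean absolute value of the new characters -/
theorem camina_avR {L M F : IntermediateField K (AlgebraicClosure K)} [NumberField M]
    [NumberField F] (hM : IsGalois K M) (hF : IsGalois K F) (hMF : M ≤ F)
    (hC : IsCaminaTriple L M F) [F.fixingSubgroup.Normal] [Finite (GK K ⧸ F.fixingSubgroup)]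
    {n : ℕ} (χ : Representation ℂ (GK K) (Fin n → ℂ)) (hχ : IsNew M F χ) :
    avR F.fixingSubgroup (fun q => ‖(chF F.fixingSubgroup (fun _ : Unit => χ)
      (fun _ => hχ.2.1) ()).f q‖) ≤ Real.sqrt (1 / Module.finrank K L) := by
  have h1 := avR_vanish F.fixingSubgroup (fun _ : Unit => χ) (fun _ => hχ.2.1) (k := ()) hχ.1
    L.fixingSubgroup (fun g hg => camina_vanish hM hF hMF hC χ hχ g hg)
  rw [← IntermediateField.finrank_eq_fixingSubgroup_index] at h1
  exact h1

variable {T : HeightOneSpectrum (𝓞 K) → ℝ} {s : ℝ} (hs : 0 ≤ s) (hT : ∀ v, |T v| ≤ s)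
  {σ : HeightOneSpectrum (𝓞 K) → GK K} (hσ : ∀ v, IsFrob v (σ v)) {τ : ℝ}
  {L M F : IntermediateField K (AlgebraicClosure K)} [NumberField M] [NumberField F]
  (hM : IsGalois K M) (hF : IsGalois K F) (hMF : M ≤ F) (hC : IsCaminaTriple L M F)

include hs hT hσ hM hF hMF hC in
/-- **Integral limits of the new characters are zero.** -/
theorem camina_zero (hlt : (s * heightFactor τ) ^ 2 < Module.finrank K L) {n : ℕ}
    (χ : Representation ℂ (GK K) (Fin n → ℂ)) (hχ : IsNew M F χ) {δ : ℤ}
    (h : Lim T σ ⟨n, χ⟩ τ δ) : δ = 0 := by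
  obtain ⟨hUo, hUn⟩ := normal_fix F hF
  have hfin : Finite (GK K ⧸ F.fixingSubgroup) := Subgroup.quotient_finite_of_isOpen _ hUo
  have h1 := lim_abs_le F.fixingSubgroup hUo hs hT hσ (τ := τ) ⟨n, χ⟩ hχ.2.1 h
    (camina_avR hM hF hMF hC χ hχ)
  have hL : (0 : ℝ) < Module.finrank K L := lt_of_le_of_lt (sq_nonneg _) hlt
  have hh : 0 ≤ heightFactor τ := by
    unfold heightFactor
    have := Real.pi_pos
    split_ifs <;> positivity
  have h2 : s * (heightFactor τ * Real.sqrt (1 / Module.finrank K L)) < 1 := by
    rw [← mul_assoc, Real.sqrt_div zero_le_one, Real.sqrt_one, mul_one_div,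
      div_lt_one (Real.sqrt_pos.2 hL)]
    exact Real.lt_sqrt_of_sq_lt hlt
  have h3 : |(δ : ℝ)| < 1 := h1.trans_lt h2
  have h4 : |δ| < 1 := by exact_mod_cast h3
  exact Int.abs_lt_one_iff.1 h4

include hs hT hσ hM hF hMF hC in
/-- **The difference of the permutation characters.** -/
theorem camina_has (hlt : (s * heightFactor τ) ^ 2 < Module.finrank K L)
    (hδ : ∀ (n : ℕ) (χ : Representation ℂ (GK K) (Fin n → ℂ)), IsNew M F χ →
      ∃ δ : ℤ, Lim T σ ⟨n, χ⟩ τ δ) :
    Has (fun v => T v * (((fixn K F (σ v) : ℝ) - fixn K M (σ v)) * cz τ v)) 0 := by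
  classical
  obtain ⟨hUo, hUn⟩ := normal_fix F hF
  have hfin : Finite (GK K ⧸ F.fixingSubgroup) := Subgroup.quotient_finite_of_isOpen _ hUo
  obtain ⟨Ls, hLs, hfix⟩ := exists_list hM hF hMF
  have h1 := has_list hs hT σ F.fixingSubgroup τ (fun _ => (0 : ℝ)) Ls (fun x hx => by
    refine ⟨(hLs x hx).2.1, ?_⟩
    have hnew : IsNew M F x.2 := hLs x hx
    obtain ⟨δ, hδx⟩ := hδ x.1 x.2 hnew
    have h2 := camina_zero hs hT hσ hM hF hMF hC hlt x.2 hnew hδx
    rw [h2, Int.cast_zero] at hδx
    exact hδx)
  refine h1.congr (fun v => ?_) ?_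
  · congr 1
    have e1 : ∀ L' : List (MRep (GK K)), (L'.map fun x => RR x.2 τ σ v).sum =
        ((L'.map fun x => x.2.character (σ v)⁻¹).sum * zz τ v).re := by
      intro L'
      induction L' with
      | nil => simp
      | cons x L' ih =>
        rw [List.map_cons, List.sum_cons, ih, List.map_cons, List.sum_cons, add_mul,
          Complex.add_re]
        rfl
    rw [e1, ← hfix, fixn_inv, fixn_inv]
    unfold cz
    have e2 : ((fixn K F (σ v) : ℕ) : ℂ) - ((fixn K M (σ v) : ℕ) : ℂ) =
        (((fixn K F (σ v) : ℝ) - fixn K M (σ v) : ℝ) : ℂ) := by push_cast; rfl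
    rw [e2, Complex.re_ofReal_mul]
  · simp

include hs hT hσ hM hF hMF hC in
/-- **The difference of the sizes.** -/
theorem camina_sizes (hlt : (s * heightFactor τ) ^ 2 < Module.finrank K L)
    (hδ : ∀ (n : ℕ) (χ : Representation ℂ (GK K) (Fin n → ℂ)), IsNew M F χ →
      ∃ δ : ℤ, Lim T σ ⟨n, χ⟩ τ δ)
    {T' : HX K → ℝ} (hTT : ∀ x, T' x = T (vx x)) {A B : ℝ → ℝ}
    (hA : SzH T' (fun v => fixn K F (σ v) * cz τ v) A)
    (hB : SzH T' (fun v => fixn K M (σ v) * cz τ v) B) :
    Tendsto (fun ε => A ε - B ε) (𝓝[>] 0) (𝓝 0) := by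
  have h1 := camina_has hs hT hσ hM hF hMF hC hlt hδ
  have h2 : SzH T' (fun v => (fixn K F (σ v) * cz τ v) + (-1) * (fixn K M (σ v) * cz τ v))
      (fun ε => A ε + (-1) * B ε) := by
    refine hA.add (hB.const_mul (-1)) (N := s) (B := Module.finrank ℚ F * 1)
      (B' := Module.finrank ℚ M * 1) (fun x => ?_) (fun v => ?_) (fun v => ?_)
    · rw [hTT]
      exact hT _
    · rw [abs_mul, abs_of_nonneg (Nat.cast_nonneg _)]
      exact mul_le_mul (fixn_le _) (abs_cz _ _) (abs_nonneg _) (Nat.cast_nonneg _)
    · rw [abs_mul, abs_neg, abs_one, one_mul, abs_mul, abs_of_nonneg (Nat.cast_nonneg _)]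
      exact mul_le_mul (fixn_le _) (abs_cz _ _) (abs_nonneg _) (Nat.cast_nonneg _)
  have h3 := lim_of_has (T' := T) hTT (h2.congr (Ψ' := fun v =>
    ((fixn K F (σ v) : ℝ) - fixn K M (σ v)) * cz τ v) (X' := fun ε => A ε - B ε)
    (fun v => by ring) (fun ε => by ring)) h1
  exact h3

end

end Pool.Agent.TH526.DS
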