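import Pool.Agent.TH526.DS.Cam

/-! Camina triples: the defects and the orders. -/

set_option autoImplicit false

namespace Pool.Agent.TH526.DS

open Complex Filter Topology ComplexConjugate NumberField IsDedekindDomain Polynomial
  Pool.Agent.W401.Cheb Pool.Agent.W540.BE Pool.Agent.W353.L1 Pool.Agent.W353.AT
open Pool.Agent.W353.NF (act fixn cz TT size_fix SzH vx)
open Pool.Agent.W353.TP (HX)
open Pool.Agent.H341R2 (lam)
open Pool.Agent.W353.EF (LFun)
open Pool.Agent.W353.EH (edgePoint size)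
open Pool.Agent.W353.TD (ch rank IsPart Defect syD syD_real size_D tF_sub_le)
open Pool.Agent.W353.PV (tF size_X size_X0 syX syX_real lim_ord)

section
variable {K : Type} [Field K] [NumberField K] {l : ℕ} {X : Set (MvPolynomial (Fin l) (𝓞 K))}
  {d m i N : ℕ} {V : Type} [AddCommGroup V] [Module ℚ V] [FiniteDimensional ℚ V]
  {ρ : Representation ℚ (GK K) V}

theorem heightFactor_zero : heightFactor 0 = 1 := if_pos rfl

theorem isNew_artin {M F : IntermediateField K (AlgebraicClosure K)} [NumberField F]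
    (hF : IsGalois K F) {n : ℕ} {χ : Representation ℂ (GK K) (Fin n → ℂ)} (hχ : IsNew M F χ) :
    IsArtin χ := ⟨F.fixingSubgroup, (normal_fix F hF).1, hχ.2.1⟩

/-- **The defects for Camina triples.** -/
theorem caminaDefects (hmd : m ≤ d) (hpart : IsPart X d m N ρ) : CaminaDefects X d m N ρ := by
  classical
  have hi : 2 * m ≤ 2 * d := by omega
  choose σ hσ using exists_isFrob (F := K)
  obtain ⟨hρ, hV⟩ := hpart
  have hgood : ∀ᶠ v in cofinite, |tF X d (2 * m) N K v - ch ρ (σ v)⁻¹| ≤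
      (N - Module.finrank ℚ V : ℕ) := by
    refine hV.mono fun v hv => ?_
    obtain ⟨α, h1, h2⟩ := hv (σ v) (hσ v)
    exact tF_sub_le (ρ := ρ) hi (σ := σ v) h1 h2
  intro L M F _ _ hM hF hMF hC hlt
  set s : ℕ := N - Module.finrank ℚ V with hs
  have hT : ∀ v, |tC ρ X d (2 * m) N s σ v| ≤ (s : ℝ) := fun v => abs_tC _ _ _ _ _ _ _ _
  have hs0 : (0 : ℝ) ≤ s := Nat.cast_nonneg _
  have hlt' : ((s : ℝ) * heightFactor 0) ^ 2 < Module.finrank K L := by
    rw [heightFactor_zero, mul_one]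
    exact_mod_cast hlt
  obtain ⟨hUo, hUn⟩ := normal_fix F hF
  have hfin : Finite (GK K ⧸ F.fixingSubgroup) := Subgroup.quotient_finite_of_isOpen _ hUo
  -- the defects as limits
  have hlimδ : ∀ (r : ℕ) (χ : Representation ℂ (GK K) (Fin r → ℂ)), IsNew M F χ → ∀ δ : ℤ,
      TwistDefect X d m N ρ χ δ →
      Lim (tC ρ X d (2 * m) N s σ) σ ⟨r, χ⟩ 0 ((-δ : ℤ) : ℝ) := by
    intro r χ hχ δ hδ
    obtain ⟨B, hB, hlim⟩ := hδ
    have h1 := (tw_C (s := s) hi hσ hgood hρ ⟨r, χ⟩ (isNew_artin hF hχ) B hB).2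
    have h2 := h1.add (hlim.sub_const (twistRank ρ χ : ℝ))
    unfold Lim
    have e : (0 : ℝ) + ((twistRank ρ χ : ℝ) - δ - twistRank ρ χ) = ((-δ : ℤ) : ℝ) := by
      push_cast
      ring
    rw [e] at h2
    refine h2.congr fun ε => ?_
    ring
  refine ⟨fun r χ hχ => ⟨fun B hB η hη => ?_, fun δ hδ => ?_⟩, fun H => ?_⟩
  · have h1 := (tw_C (s := s) hi hσ hgood hρ ⟨r, χ⟩ (isNew_artin hF hχ) B hB).2
    have h2 := sup1 F.fixingSubgroup hUo {()} (fun _ : Unit => χ) (fun _ => hχ.2.1) 0 σ hσ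
      hs0 hT (x := fun _ ε => size (2 * m) 0 B ε - twistRank ρ χ) (fun k _ => h1)
      (fun _ => 1) hη
    simp only [Finset.sum_singleton, one_mul] at h2
    refine h2.mono fun ε hε => hε.trans (add_le_add ?_ le_rfl)
    have h3 := camina_avR hM hF hMF hC χ hχ
    have h4 : nrm F.fixingSubgroup 0 (comb F.fixingSubgroup {()} (fun _ : Unit => χ)
        (fun _ => hχ.2.1) fun _ => 1) ≤ 1 / Real.sqrt (Module.finrank K L) := by
      refine (nrm_le _ 0 _).trans ?_
      rw [if_pos rfl, one_mul]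
      refine le_trans (le_of_eq ?_) (h3.trans (le_of_eq ?_))
      · congr 1
        funext q
        unfold comb
        rw [Finset.sum_singleton, Complex.ofReal_one, one_mul]
        rfl
      · rw [Real.sqrt_div zero_le_one, Real.sqrt_one]
    rw [div_eq_mul_one_div]
    exact mul_le_mul_of_nonneg_left h4 hs0
  · have h1 := camina_zero hs0 hT hσ hM hF hMF hC hlt' χ hχ (hlimδ r χ hχ δ hδ)
    omega
  · have H' : ∀ (r : ℕ) (χ : Representation ℂ (GK K) (Fin r → ℂ)), IsNew M F χ →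
        ∃ δ : ℤ, Lim (tC ρ X d (2 * m) N s σ) σ ⟨r, χ⟩ 0 δ := by
      intro r χ hχ
      obtain ⟨δ, hδ⟩ := H r χ hχ
      exact ⟨-δ, hlimδ r χ hχ δ hδ⟩
    have hSz : ∀ (E : IntermediateField K (AlgebraicClosure K)) [NumberField E]
        (B : HeightOneSpectrum (𝓞 E) → ℂ[X]), W353.EF.IsEulerSystem X d (2 * m) N B →
        SzH (TT (syD ρ X d (2 * m) N s σ)) (fun v => fixn K E (σ v) * cz 0 v)
          (fun ε => W353.EF.size (2 * m) B ε - rank ρ E) := by
      intro E _ B hB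
      have h1 := size_X0 hi B hB.1 hB.2 (fun _ : Fin 0 => (1 : 𝓞 E))
      have h2 := size_D ρ X d (2 * m) N s σ hσ hgood hρ _ _ h1.2 E.val
      have h3 := size_fix _ (syD_real ρ X d (2 * m) N s σ) σ hσ h2
      have hr : rank ρ E = Module.finrank ℚ (W353.TD.inv ρ E.val.fieldRange.fixingSubgroup) := by
        rw [W353.TD.inv_eq, IntermediateField.fieldRange_val]
        rfl
      refine h3.congr (fun v => rfl) (fun ε => ?_)
      rw [hr]
      rfl
    have hTT : ∀ x, TT (syD ρ X d (2 * m) N s σ) x = tC ρ X d (2 * m) N s σ (vx x) := by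
      intro x
      have e3 : TT (syD ρ X d (2 * m) N s σ) x =
          ∑ _j ∈ ({()} : Finset Unit), (((W353.TD.tD ρ X d (2 * m) N s σ x : ℝ) : ℂ)).re := rfl
      rw [e3, Finset.sum_singleton, Complex.ofReal_re]
      rfl
    have hmain : ∀ (B : HeightOneSpectrum (𝓞 F) → ℂ[X]) (B' : HeightOneSpectrum (𝓞 M) → ℂ[X]),
        W353.EF.IsEulerSystem X d (2 * m) N B → W353.EF.IsEulerSystem X d (2 * m) N B' →
        Tendsto (fun ε : ℝ => (W353.EF.size (2 * m) B ε - rank ρ F) -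
          (W353.EF.size (2 * m) B' ε - rank ρ M)) (𝓝[>] 0) (𝓝 0) := fun B B' hB hB' =>
      camina_sizes hs0 hT hσ hM hF hMF hC hlt' H' hTT (hSz F B hB) (hSz M B' hB')
    refine ⟨hmain, ?_⟩
    rintro δ δ' ⟨hn1, B, hB, h1⟩ ⟨hn2, B', hB', h2⟩
    have h3 := hmain B B' hB hB'
    have h4 := (h1.sub_const (rank ρ F : ℝ)).sub (h2.sub_const (rank ρ M : ℝ))
    have h5 := tendsto_nhds_unique h3 h4
    have h6 : (δ : ℝ) = δ' := by linarith
    exact_mod_cast h6

/-- **The orders for Camina triples.** -/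
theorem caminaOrders (hi : i ≤ 2 * d) : CaminaOrders X d i N := by
  classical
  choose σ hσ using exists_isFrob (F := K)
  intro L M F _ _ τ hM hF hMF hC hlt
  have hT : ∀ v, |tF X d i N K v| ≤ (N : ℝ) := fun v => abs_tr_le _ _ _
  have hs0 : (0 : ℝ) ≤ N := Nat.cast_nonneg _
  obtain ⟨hUo, hUn⟩ := normal_fix F hF
  have hfin : Finite (GK K ⧸ F.fixingSubgroup) := Subgroup.quotient_finite_of_isOpen _ hUo
  have hlimk : ∀ (r : ℕ) (χ : Representation ℂ (GK K) (Fin r → ℂ)), IsNew M F χ → ∀ k : ℤ,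
      TwistOrder X d i N χ τ k → Lim (tF X d i N K) σ ⟨r, χ⟩ τ ((-k : ℤ) : ℝ) := by
    intro r χ hχ k hk
    obtain ⟨B, hB, hord⟩ := hk
    have h1 := (tw_size hi F.fixingSubgroup χ hχ.2.1 τ B hB σ hσ).2
    have h2 := h1.add (tw_lim hi F.fixingSubgroup χ hχ.2.1 τ B hB hord)
    unfold Lim
    rw [zero_add] at h2
    push_cast
    refine h2.congr fun ε => ?_
    ring
  have e0 : ((((i : ℝ) / 2 : ℝ) : ℂ) + 1 + (τ : ℂ) * Complex.I) = edgePoint i τ := edge_eq τ
  refine ⟨fun r χ hχ => ⟨fun B hB η hη => ?_, fun k hk => ?_⟩, fun H => ?_⟩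
  · have h1 := (tw_size hi F.fixingSubgroup χ hχ.2.1 τ B hB σ hσ).2
    have h2 := sup1 F.fixingSubgroup hUo {()} (fun _ : Unit => χ) (fun _ => hχ.2.1) τ σ hσ
      hs0 hT (x := fun _ ε => size i τ B ε) (fun k _ => h1) (fun _ => 1) hη
    simp only [Finset.sum_singleton, one_mul] at h2
    refine h2.mono fun ε hε => hε.trans (add_le_add ?_ le_rfl)
    have h3 := camina_avR hM hF hMF hC χ hχ
    have hh : 0 ≤ heightFactor τ := by
      unfold heightFactor
      have := Real.pi_pos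
      split_ifs <;> positivity
    have h5 : heightFactor τ = if τ = 0 then 1 else 2 / Real.pi := by
      unfold heightFactor
      split_ifs <;> rfl
    have h4 : nrm F.fixingSubgroup τ (comb F.fixingSubgroup {()} (fun _ : Unit => χ)
        (fun _ => hχ.2.1) fun _ => 1) ≤ heightFactor τ / Real.sqrt (Module.finrank K L) := by
      refine (nrm_le _ τ _).trans ?_
      rw [← h5, div_eq_mul_one_div]
      refine mul_le_mul_of_nonneg_left (le_trans (le_of_eq ?_) (h3.trans (le_of_eq ?_))) hh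
      · congr 1
        funext q
        unfold comb
        rw [Finset.sum_singleton, Complex.ofReal_one, one_mul]
        rfl
      · rw [Real.sqrt_div zero_le_one, Real.sqrt_one]
    rw [mul_div_assoc]
    exact mul_le_mul_of_nonneg_left h4 hs0
  · have h1 := camina_zero hs0 hT hσ hM hF hMF hC hlt χ hχ (hlimk r χ hχ k hk)
    omega
  · have H' : ∀ (r : ℕ) (χ : Representation ℂ (GK K) (Fin r → ℂ)), IsNew M F χ →
        ∃ δ : ℤ, Lim (tF X d i N K) σ ⟨r, χ⟩ τ δ := by
      intro r χ hχ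
      obtain ⟨k, hk⟩ := H r χ hχ
      exact ⟨-k, hlimk r χ hχ k hk⟩
    have hsz : ∀ (E : IntermediateField K (AlgebraicClosure K)) [NumberField E]
        (B : HeightOneSpectrum (𝓞 E) → ℂ[X]), W353.EH.IsEulerSystem X d i N τ B →
        (∀ᶠ ε : ℝ in 𝓝[>] 0, LFun B (edgePoint i τ + ε) ≠ 0) ∧
        SzH (TT (syX X d i N)) (fun v => fixn K E (σ v) * cz τ v) (size i τ B) := by
      intro E _ B hB
      have h := size_X hi B hB.1 τ (by rw [e0]; exact hB.2) (fun _ : Fin 0 => (1 : 𝓞 E))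
      rw [e0] at h
      exact ⟨h.1, size_fix _ (syX_real X d i N) σ hσ h.2⟩
    have hTT : ∀ x, TT (syX X d i N) x = tF X d i N K (vx x) := by
      intro x
      have e3 : TT (syX X d i N) x =
          ∑ _j ∈ ({()} : Finset Unit), (((tF X d i N K (vx x) : ℝ) : ℂ)).re := rfl
      rw [e3, Finset.sum_singleton, Complex.ofReal_re]
    have hmain : ∀ (B : HeightOneSpectrum (𝓞 F) → ℂ[X]) (B' : HeightOneSpectrum (𝓞 M) → ℂ[X]),
        W353.EH.IsEulerSystem X d i N τ B → W353.EH.IsEulerSystem X d i N τ B' →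
        Tendsto (fun ε : ℝ => size i τ B ε - size i τ B' ε) (𝓝[>] 0) (𝓝 0) :=
      fun B B' hB hB' => camina_sizes hs0 hT hσ hM hF hMF hC hlt H' hTT (hsz F B hB).2
        (hsz M B' hB').2
    refine ⟨hmain, ?_⟩
    have hord : ∀ (E : IntermediateField K (AlgebraicClosure K)) [NumberField E]
        (B : HeightOneSpectrum (𝓞 E) → ℂ[X]), W353.EH.IsEulerSystem X d i N τ B → ∀ k : ℤ,
        W353.EH.HasOrder i τ B k → Tendsto (size i τ B) (𝓝[>] 0) (𝓝 (-(k : ℝ))) := by
      intro E _ B hB k hk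
      obtain ⟨Λ, h1, h2, h3⟩ := hk
      exact lim_ord (hsz E B hB).1 h1 (h2.mono fun s hs hs' => hs (by
        rw [edge_re] at hs'
        exact hs')) h3
    rintro k k' ⟨hn1, B, hB, h1⟩ ⟨hn2, B', hB', h2⟩
    have h3 := hmain B B' hB hB'
    have h4 := (hord F B hB k h1).sub (hord M B' hB' k' h2)
    have h5 := tendsto_nhds_unique h3 h4
    have h6 : (k : ℝ) = k' := by linarith
    exact_mod_cast h6

end

end Pool.Agent.TH526.DS
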