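import Pool.Agent.W353.AT.TDefs

/-!
# The defects of Tate's conjecture for Artin twists at all heights: definitions

`X` is a smooth projective variety over a number field `K`, of dimension `d`, and `m` an integer,
`0 ≤ m ≤ d`; `V` is a part of `H^{2m}(X)(m)`, for instance `V = A^m(X) ⊗ ℚ`; `χ` is a complex
representation of the absolute Galois group of `K` that is trivial on an open subgroup (an Artin
representation).  `L(H^{2m}(X) ⊗ χ, s)` is an Euler product over the primes of `K`.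
-/

set_option autoImplicit false

namespace Pool.Agent.TH526.DS

open NumberField IsDedekindDomain Filter Topology Polynomial
open Pool.Agent.W353.EF (LFun)
open Pool.Agent.W353.EH (edgePoint size)
open Pool.Agent.W353.AT (IsArtin IsTwistedSystem twistRank meanNorm)

section
variable {K : Type} [Field K] {V : Type} [AddCommGroup V] [Module ℚ V]

open Classical in
/-- The order of the pole of `L(H^{2m}(X) ⊗ χ, s)` at `s = m + 1 + iτ` that is expected for
`V = A^m(X) ⊗ ℚ`: the dimension of the space of the elements of `(ℂ ⊗ V) ⊗ χ` fixed by the absolute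
Galois group of `K` for `τ = 0` (Tate's conjecture), and `0` for `τ ≠ 0`. -/
noncomputable def expected (ρ : Representation ℚ Gal(AlgebraicClosure K/K) V) {r : ℕ}
    (χ : Representation ℂ Gal(AlgebraicClosure K/K) (Fin r → ℂ)) (τ : ℝ) : ℕ :=
  if τ = 0 then twistRank ρ χ else 0

open Classical in
/-- `1` for `τ = 0` and `2/π` for `τ ≠ 0`. -/
noncomputable def heightFactor (τ : ℝ) : ℝ := if τ = 0 then 1 else 2 / Real.pi

/-- The `χ_k` are all the irreducible complex representations of the finite group `Gal(K̄/K) / U`: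
they are irreducible, pairwise inequivalent and the sum of the squares of their degrees is the order of
the group. -/
def IsComplete (U : Subgroup Gal(AlgebraicClosure K/K)) {κ : Type} [Fintype κ] {r : κ → ℕ}
    (χ : ∀ k, Representation ℂ Gal(AlgebraicClosure K/K) (Fin (r k) → ℂ)) : Prop :=
  (∀ k, (χ k).IsIrreducible) ∧ (∀ k l, k ≠ l → IsEmpty ((χ k).Equiv (χ l))) ∧
    ∑ k, r k ^ 2 = Nat.card (Gal(AlgebraicClosure K/K) ⧸ U)

variable [NumberField K] {n : ℕ}

/-- `L(H^{2m}(X) ⊗ χ, s)` has the order `δ - expected` at `s = m + 1 + iτ`, in the sense that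
`log |L(m + 1 + iτ + ε)| / log(1/ε)` tends to `expected - δ` as `ε → 0+`; this holds if there is a
meromorphic continuation to a neighbourhood of `m + 1 + iτ` of this order. -/
def DefectAt (X : Set (MvPolynomial (Fin n) (𝓞 K))) (d m N : ℕ)
    (ρ : Representation ℚ Gal(AlgebraicClosure K/K) V) {r : ℕ}
    (χ : Representation ℂ Gal(AlgebraicClosure K/K) (Fin r → ℂ)) (τ : ℝ) (δ : ℤ) : Prop :=
  ∃ B : HeightOneSpectrum (𝓞 K) → ℂ[X], IsTwistedSystem X d (2 * m) N χ τ B ∧
    Tendsto (size (2 * m) τ B) (𝓝[>] 0) (𝓝 ((expected ρ χ τ : ℝ) - δ))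

/-- Let `s = N - dim V`, let `U` be an open normal subgroup of `Gal(K̄/K)`, `χ_k` (`k` in a finite set)
representations that are trivial on `U`, and `τ` real.  Write `x_k(ε)` for
`log |L(H^{2m}(X) ⊗ χ_k, m + 1 + iτ + ε)| / log(1/ε)` and `e_k` for the expected order.
* (No continuation is assumed here.)  The `L`-functions are different from zero at `m + 1 + iτ + ε` for
small `ε > 0`; for real `c_k`, every `η > 0` and all small `ε > 0`,
`|∑ c_k (x_k(ε) - e_k)| ≤ s ‖∑ c_k χ_k‖ + η`; and if the `χ_k` are all the irreducible representations of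
`Gal(K̄/K) / U`, then, for every `η > 0` and all small `ε > 0`,
`|∑ (x_k(ε) - e_k) χ_k(g)| ≤ s + η` for all `g`, and even `≤ 2s/π + η` if `τ ≠ 0`.
* If there are defects `δ_k`, then `|∑ c_k δ_k| ≤ s ‖∑ c_k χ_k‖` for real `c_k`, and
`|∑ δ_k χ_k(g)| ≤ s` for all `g` (`≤ 2s/π` if `τ ≠ 0`) if the `χ_k` are all the irreducible
representations of `Gal(K̄/K) / U`. -/
def DefectsSupNorm (X : Set (MvPolynomial (Fin n) (𝓞 K))) (d m N : ℕ)
    (ρ : Representation ℚ Gal(AlgebraicClosure K/K) V) : Prop :=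
  ∀ (U : Subgroup Gal(AlgebraicClosure K/K)) [U.Normal],
    IsOpen (U : Set Gal(AlgebraicClosure K/K)) → ∀ (κ : Type) [Fintype κ] (r : κ → ℕ)
    (χ : ∀ k, Representation ℂ Gal(AlgebraicClosure K/K) (Fin (r k) → ℂ)) (τ : ℝ),
    (∀ k, ∀ u ∈ U, χ k u = 1) →
    (∀ B : κ → HeightOneSpectrum (𝓞 K) → ℂ[X],
      (∀ k, IsTwistedSystem X d (2 * m) N (χ k) τ (B k)) →
      (∀ k, ∀ᶠ ε : ℝ in 𝓝[>] 0, LFun (B k) (edgePoint (2 * m) τ + ε) ≠ 0) ∧
      (∀ (c : κ → ℝ) (η : ℝ), 0 < η → ∀ᶠ ε : ℝ in 𝓝[>] 0,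
        |∑ k, c k * (size (2 * m) τ (B k) ε - expected ρ (χ k) τ)| ≤
          ((N - Module.finrank ℚ V : ℕ) : ℝ) *
            meanNorm U τ (fun g => ∑ k, (c k : ℂ) * (χ k).character g) + η) ∧
      (IsComplete U χ → ∀ η : ℝ, 0 < η → ∀ᶠ ε : ℝ in 𝓝[>] 0, ∀ g,
        ‖∑ k, ((size (2 * m) τ (B k) ε - expected ρ (χ k) τ : ℝ) : ℂ) * (χ k).character g‖ ≤
          ((N - Module.finrank ℚ V : ℕ) : ℝ) * heightFactor τ + η)) ∧
    ∀ δ : κ → ℤ, (∀ k, DefectAt X d m N ρ (χ k) τ (δ k)) →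
      (∀ c : κ → ℝ, |∑ k, c k * δ k| ≤ ((N - Module.finrank ℚ V : ℕ) : ℝ) *
        meanNorm U τ (fun g => ∑ k, (c k : ℂ) * (χ k).character g)) ∧
      (IsComplete U χ → ∀ g, ‖∑ k, (δ k : ℂ) * (χ k).character g‖ ≤
        ((N - Module.finrank ℚ V : ℕ) : ℝ) * heightFactor τ)

/-- Let `s = N - dim V`, `χ` an irreducible Artin representation, `c > 0` such that every value of the
character of `χ` is zero or of absolute value at least `c`, and `τ` real.  Then (no continuation is
assumed here) `|log |L(m + 1 + iτ + ε)| / log(1/ε) - e| ≤ s / c + η` for every `η > 0` and all small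
`ε > 0`, for `L(H^{2m}(X) ⊗ χ, s)` and the expected order `e`, and the defect `δ`, if it exists, satisfies
`|δ| ≤ s / c`, and it is `0` if `s < c`; for `τ ≠ 0` the same is true with `2s/π` instead of `s`. -/
def LargeValues (X : Set (MvPolynomial (Fin n) (𝓞 K))) (d m N : ℕ)
    (ρ : Representation ℚ Gal(AlgebraicClosure K/K) V) : Prop :=
  ∀ (r : ℕ) (χ : Representation ℂ Gal(AlgebraicClosure K/K) (Fin r → ℂ)) (c τ : ℝ),
    IsArtin χ → χ.IsIrreducible → 0 < c →
    (∀ g, χ.character g ≠ 0 → c ≤ ‖χ.character g‖) →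
    (∀ B : HeightOneSpectrum (𝓞 K) → ℂ[X], IsTwistedSystem X d (2 * m) N χ τ B →
      ∀ η : ℝ, 0 < η → ∀ᶠ ε : ℝ in 𝓝[>] 0, |size (2 * m) τ B ε - expected ρ χ τ| ≤
        ((N - Module.finrank ℚ V : ℕ) : ℝ) * heightFactor τ / c + η) ∧
    ∀ δ : ℤ, DefectAt X d m N ρ χ τ δ →
      |(δ : ℝ)| ≤ ((N - Module.finrank ℚ V : ℕ) : ℝ) * heightFactor τ / c ∧
      (((N - Module.finrank ℚ V : ℕ) : ℝ) * heightFactor τ < c → δ = 0)

end

end Pool.Agent.TH526.DS
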