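import Pool.Agent.W353.AT.TMain
import Pool.Agent.TH526.DS.Defs

/-! The defects of Tate's conjecture for Artin twists at all heights: proofs. -/

set_option autoImplicit false

namespace Pool.Agent.TH526.DS

open Complex Filter Topology ComplexConjugate NumberField IsDedekindDomain Polynomial
  Pool.Agent.W401.Cheb Pool.Agent.W540.BE Pool.Agent.W353.L1 Pool.Agent.W353.AT
open Pool.Agent.H341R2 (lam lam_tendsto sysK)
open Pool.Agent.W353.EF (LFun)
open Pool.Agent.W353.EH (edgePoint size)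
open Pool.Agent.W353.TD (ch rank IsPart tF_sub_le)
open Pool.Agent.W353.PV (tF)

section
variable {K : Type} [Field K] [NumberField K] {V : Type} [AddCommGroup V] [Module ℚ V]

/-- **Mean value of the character, with a height.** -/
theorem cheb_tw' [FiniteDimensional ℚ V] (ρ : Representation ℚ (GK K) V)
    (hρ : ∃ U : Subgroup (GK K), IsOpen (U : Set (GK K)) ∧ ∀ u ∈ U, ρ u = 1)
    {n : ℕ} (χ : Representation ℂ (GK K) (Fin n → ℂ)) (hx : IsArtin χ) (τ : ℝ)
    (σ : HeightOneSpectrum (𝓞 K) → GK K) (hσ : ∀ v, IsFrob v (σ v)) :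
    Has (fun v => ch ρ (σ v)⁻¹ * RR χ τ σ v) (expected ρ χ τ) := by
  classical
  obtain ⟨U₁, hU₁n, hU₁, hx1⟩ := exists_common (κ := Unit) (n := fun _ => n)
    (fun _ => χ) fun _ => hx
  obtain ⟨W, hW, hW1⟩ := hρ
  set U₂ := (MonoidHom.toHomUnits ρ).ker with hU₂
  have hU₂o : IsOpen (U₂ : Set (GK K)) := by
    refine Subgroup.isOpen_mono (H₁ := W) ?_ hW
    intro u hu
    rw [hU₂, MonoidHom.mem_ker]
    exact Units.ext (hW1 u hu)
  set U := U₁ ⊓ U₂ with hUd
  have hU : IsOpen (U : Set (GK K)) := by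
    rw [hUd, Subgroup.coe_inf]
    exact hU₁.inter hU₂o
  have hfin : Finite (GK K ⧸ U) := Subgroup.quotient_finite_of_isOpen U hU
  let _ : Fintype (GK K ⧸ U) := Fintype.ofFinite _
  have htriv : ∀ u ∈ U, ((extendScalars ρ).tprod χ) u = 1 := by
    intro u hu
    have h1 : χ u = 1 := hx1 () u hu.1
    have h2 : ρ u = 1 := congrArg Units.val ((MonoidHom.mem_ker).1 hu.2)
    have h3 : extendScalars ρ u = 1 := by
      change (ρ u).baseChange ℂ = 1
      rw [h2]
      exact LinearMap.baseChange_one (R := ℚ) (A := ℂ) (M := V)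
    rw [Representation.tprod_apply, h1, h3]
    exact TensorProduct.map_one
  set Q := qrep U ((extendScalars ρ).tprod χ) htriv with hQ
  have hchar : ∀ g : GK K, ((extendScalars ρ).tprod χ).character g =
      ((ch ρ g : ℝ) : ℂ) * χ.character g := by
    intro g
    rw [Representation.char_tensor, Pi.mul_apply, extendScalars_char]
  have hinv : Module.finrank ℂ Q.invariants = twistRank ρ χ := by
    unfold twistRank
    have e : Q.invariants = ((extendScalars ρ).tprod χ).invariants := by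
      ext y
      constructor
      · intro h g
        exact h (QuotientGroup.mk g)
      · intro h g
        obtain ⟨g, rfl⟩ := QuotientGroup.mk_surjective g
        exact h g
    rw [e]
  have hmean : avC U (fun q => Q.character q⁻¹) = ((twistRank ρ χ : ℝ) : ℂ) := by
    unfold avC
    have e5 : ∑ q : GK K ⧸ U, Q.character q⁻¹ = ∑ q : GK K ⧸ U, Q.character q :=
      Equiv.sum_comp (Equiv.inv (GK K ⧸ U)) (fun q => Q.character q)
    rw [finsum_eq_sum_of_fintype, e5, sumC_char, Nat.card_eq_fintype_card, hinv]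
    have h0 : (Fintype.card (GK K ⧸ U) : ℂ) ≠ 0 := by exact_mod_cast Fintype.card_ne_zero
    rw [inv_mul_cancel_left₀ h0]
    push_cast
    rfl
  have h1 := cheb_edge U hU (fun q => Q.character q⁻¹) (fun a g => by
    have h2 : (g * a * g⁻¹)⁻¹ = g * a⁻¹ * g⁻¹ := by group
    rw [h2, Representation.char_conj]) _ hmean σ hσ τ
  have he0 : (if τ = 0 then (twistRank ρ χ : ℝ) else 0) = (expected ρ χ τ : ℝ) := by
    unfold expected
    split_ifs
    · rfl
    · simp
  rw [he0] at h1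
  have he : ∀ v, (Q.character (QuotientGroup.mk (σ v))⁻¹ *
      ((nm K v : ℕ) : ℂ) ^ (-((τ : ℂ) * I))).re = ch ρ (σ v)⁻¹ * RR χ τ σ v := by
    intro v
    have e1 : Q.character (QuotientGroup.mk (σ v))⁻¹ =
        ((extendScalars ρ).tprod χ).character (σ v)⁻¹ := rfl
    rw [e1, hchar, mul_assoc, Complex.re_ofReal_mul]
    rfl
  refine ⟨⟨∑ q : GK K ⧸ U, ‖Q.character q⁻¹‖, fun v => ?_⟩, ?_⟩
  · change |ch ρ (σ v)⁻¹ * RR χ τ σ v| ≤ _
    rw [← he]
    refine (Complex.abs_re_le_norm _).trans ?_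
    have hz : ‖((nm K v : ℕ) : ℂ) ^ (-((τ : ℂ) * I))‖ = 1 := norm_zz τ v
    rw [norm_mul, hz, mul_one]
    exact Finset.single_le_sum (f := fun q : GK K ⧸ U => ‖Q.character q⁻¹‖)
      (fun q _ => norm_nonneg _) (Finset.mem_univ (QuotientGroup.mk (σ v)))
  · refine h1.congr fun ε => ?_
    congr 2
    funext v
    exact he v

variable {l : ℕ} {ρ : Representation ℚ (GK K) V} {X : Set (MvPolynomial (Fin l) (𝓞 K))}
  {d i N s : ℕ} {σ : HeightOneSpectrum (𝓞 K) → GK K}

/-- **The sizes of the twists on the complement, with a height.** -/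
theorem tw_C' [FiniteDimensional ℚ V] (hi : i ≤ 2 * d) (hσ : ∀ v, IsFrob v (σ v))
    (hgood : ∀ᶠ v in cofinite, |tF X d i N K v - ch ρ (σ v)⁻¹| ≤ s)
    (hρ : ∃ U : Subgroup (GK K), IsOpen (U : Set (GK K)) ∧ ∀ u ∈ U, ρ u = 1)
    {n : ℕ} (χ : Representation ℂ (GK K) (Fin n → ℂ)) (hx : IsArtin χ) (τ : ℝ)
    (B : HeightOneSpectrum (𝓞 K) → ℂ[X]) (hB : IsTwistedSystem X d i N χ τ B) :
    (∀ᶠ ε : ℝ in 𝓝[>] 0, LFun B (edgePoint i τ + ε) ≠ 0) ∧
    Tendsto (fun ε : ℝ => (EP (nm K) ε fun v => tC ρ X d i N s σ v * RR χ τ σ v) / lam ε -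
      (size i τ B ε - expected ρ χ τ)) (𝓝[>] 0) (𝓝 0) := by
  classical
  obtain ⟨U, hUn, hU, hx1⟩ := exists_common (κ := Unit) (n := fun _ => n)
    (fun _ => χ) fun _ => hx
  have hx1 : ∀ u ∈ U, χ u = 1 := hx1 ()
  have hfin : Finite (GK K ⧸ U) := Subgroup.quotient_finite_of_isOpen U hU
  have h1 := tw_size hi U χ hx1 τ B hB σ hσ
  refine ⟨h1.1, ?_⟩
  obtain ⟨⟨Bc, hBc⟩, hlim⟩ := cheb_tw' ρ hρ χ hx τ σ hσ
  have hbad : {v | ¬ |tF X d i N K v - ch ρ (σ v)⁻¹| ≤ s}.Finite := by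
    rwa [Filter.eventually_cofinite] at hgood
  -- the finitely many bad primes
  set φ : HeightOneSpectrum (𝓞 K) → ℝ := fun v => (tC ρ X d i N s σ v -
    (tF X d i N K v - ch ρ (σ v)⁻¹)) * RR χ τ σ v with hφ
  have hR : ∀ v, |RR χ τ σ v| ≤ n := fun v => abs_RR_le U χ hx1 _ _ _
  have hTF : ∀ v, |tF X d i N K v| ≤ (N : ℝ) := fun v => abs_tr_le _ _ _
  have hb1 : ∀ v, |tF X d i N K v * RR χ τ σ v| ≤ N * n := by
    intro v
    rw [abs_mul]
    exact mul_le_mul (hTF v) (hR v) (abs_nonneg _) (Nat.cast_nonneg _)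
  have hb2 : ∀ v, |tC ρ X d i N s σ v * RR χ τ σ v| ≤ s * n := by
    intro v
    rw [abs_mul]
    exact mul_le_mul (abs_tC _ _ _ _ _ _ _ _) (hR v) (abs_nonneg _) (Nat.cast_nonneg _)
  have hφ2 : ∀ v, φ v = tC ρ X d i N s σ v * RR χ τ σ v +
      ((-1) * (tF X d i N K v * RR χ τ σ v) + ch ρ (σ v)⁻¹ * RR χ τ σ v) := by
    intro v
    rw [hφ]
    ring
  have hb3 : ∀ v, |(-1 : ℝ) * (tF X d i N K v * RR χ τ σ v)| ≤ N * n := by
    intro v
    rw [abs_mul, abs_neg, abs_one, one_mul]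
    exact hb1 v
  have hb4 : ∀ v, |(-1 : ℝ) * (tF X d i N K v * RR χ τ σ v) +
      ch ρ (σ v)⁻¹ * RR χ τ σ v| ≤ N * n + Bc := fun v =>
    (abs_add_le _ _).trans (add_le_add (hb3 v) (hBc v))
  have hφB : ∀ v, |φ v| ≤ s * n + (N * n + Bc) := by
    intro v
    rw [hφ2]
    exact (abs_add_le _ _).trans (add_le_add (hb2 v) (hb4 v))
  have hφ0 : Tendsto (fun ε : ℝ => (EP (nm K) ε φ) / lam ε) (𝓝[>] 0) (𝓝 0) := by
    have hbd : ∀ ε : ℝ, 0 < ε → |EP (nm K) ε φ| ≤
        hbad.toFinset.card * (s * n + (N * n + Bc)) := by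
      intro ε hε
      refine EP_finsupp normSys hbad.toFinset φ (fun v hv => ?_) _ (fun v => hφB v) hε
      rw [Set.Finite.mem_toFinset] at hv
      have h2 : |tF X d i N K v - ch ρ (σ v)⁻¹| ≤ s := by
        by_contra h
        exact hv h
      rw [hφ]
      simp only
      unfold tC
      rw [if_pos h2, sub_self, zero_mul]
    rw [tendsto_zero_iff_abs_tendsto_zero]
    have h3 : Tendsto (fun ε : ℝ => (hbad.toFinset.card * (s * n + (N * n + Bc)) : ℝ) /
        lam ε) (𝓝[>] 0) (𝓝 0) := tendsto_const_nhds.div_atTop lam_tendsto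
    refine squeeze_zero' (Eventually.of_forall fun ε => abs_nonneg _) ?_ h3
    filter_upwards [self_mem_nhdsWithin, lam_tendsto.eventually_gt_atTop 0] with ε hε hε'
    rw [Function.comp_apply, abs_div, abs_of_pos hε']
    exact div_le_div_of_nonneg_right (hbd ε hε) hε'.le
  have h2 := (h1.2.sub hlim).add hφ0
  have e0 : (0 : ℝ) - expected ρ χ τ + 0 = -(expected ρ χ τ : ℝ) := by ring
  rw [e0] at h2
  have h3 := h2.add_const (expected ρ χ τ : ℝ)
  rw [neg_add_cancel] at h3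
  refine h3.congr' ?_
  filter_upwards [self_mem_nhdsWithin] with ε hε
  have hε' : (0 : ℝ) < ε := hε
  have e1 : EP (nm K) ε φ = (EP (nm K) ε fun v => tC ρ X d i N s σ v * RR χ τ σ v) +
      (-(EP (nm K) ε fun v => tF X d i N K v * RR χ τ σ v) +
        EP (nm K) ε fun v => ch ρ (σ v)⁻¹ * RR χ τ σ v) := by
    have e2 : EP (nm K) ε φ = EP (nm K) ε (fun v => tC ρ X d i N s σ v * RR χ τ σ v +
      ((-1) * (tF X d i N K v * RR χ τ σ v) + ch ρ (σ v)⁻¹ * RR χ τ σ v)) := by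
      congr 1
      funext v
      exact hφ2 v
    rw [e2, EP_add normSys hε' hb2 hb4, EP_add normSys hε' hb3 hBc, EP_const_mul]
    ring
  rw [e1]
  ring

end

section
variable {F : Type} [Field F] [NumberField F]
  (U : Subgroup (GK F)) [U.Normal] (hU : IsOpen (U : Set (GK F))) [Finite (GK F ⧸ U)]
  {κ : Type*} (K : Finset κ) {n : κ → ℕ}
  (ρ : ∀ k, Representation ℂ (GK F) (Fin (n k) → ℂ)) (hρ : ∀ k, ∀ u ∈ U, ρ k u = 1)
  (τ : ℝ) (σ : HeightOneSpectrum (𝓞 F) → GK F) (hσ : ∀ v, IsFrob v (σ v))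
  {T : HeightOneSpectrum (𝓞 F) → ℝ} {s : ℝ} (hs : 0 ≤ s) (hT : ∀ v, |T v| ≤ s)
  {x : κ → ℝ → ℝ} (hx : ∀ k ∈ K, Tendsto (fun ε : ℝ =>
    (EP (nm F) ε fun v => T v * RR (ρ k) τ σ v) / lam ε - x k ε) (𝓝[>] 0) (𝓝 0))

include hU hσ in
/-- the mean absolute value of a combination of characters -/
theorem mean_nrm (c : κ → ℝ) : Tendsto (fun ε : ℝ => (EP (nm F) ε fun v =>
    |∑ k ∈ K, c k * RR (ρ k) τ σ v|) / lam ε) (𝓝[>] 0) (𝓝 (nrm U τ (comb U K ρ hρ c))) := by
  classical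
  set f := comb U K ρ hρ c with hf
  have hfc : ∀ a x, f (x * a * x⁻¹) = f a := by
    intro a x
    rw [hf]
    unfold comb
    refine Finset.sum_congr rfl fun k _ => ?_
    have h1 : (x * a * x⁻¹)⁻¹ = x * a⁻¹ * x⁻¹ := by group
    rw [h1, Representation.char_conj]
  have hfi : ∀ q, f q⁻¹ = conj (f q) := by
    intro q
    rw [hf]
    unfold comb
    rw [map_sum]
    refine Finset.sum_congr rfl fun k _ => ?_
    rw [map_mul, Complex.conj_ofReal]
    congr 1
    obtain ⟨g, rfl⟩ := QuotientGroup.mk_surjective q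
    have h1 := char_conj_eq U (ρ k) (hρ k) g
    rw [inv_inv]
    exact h1.symm
  have hlim : Tendsto (fun ε : ℝ => (EP (nm F) ε fun v =>
      |(f (QuotientGroup.mk (σ v)) * zz τ v).re|) / lam ε) (𝓝[>] 0) (𝓝 (nrm U τ f)) := by
    unfold nrm
    split_ifs with h
    · subst h
      exact equi_zero U hU f hfc σ hσ
    · exact equi U hU f hfc hfi σ hσ h
  refine hlim.congr fun ε => ?_
  congr 2
  funext v
  congr 1
  rw [hf]
  unfold comb
  rw [Finset.sum_mul, Complex.re_sum]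
  refine Finset.sum_congr rfl fun k _ => ?_
  have e2 : (qrep U (ρ k) (hρ k)).character (QuotientGroup.mk (σ v))⁻¹ =
      (ρ k).character (σ v)⁻¹ := rfl
  rw [e2, mul_assoc, Complex.re_ofReal_mul]
  rfl

include hU hρ hσ hs hT hx in
/-- **The sup-norm inequality with a general bounded coefficient function.** -/
theorem sup1 (c : κ → ℝ) {η : ℝ} (hη : 0 < η) :
    ∀ᶠ ε : ℝ in 𝓝[>] 0, |∑ k ∈ K, c k * x k ε| ≤ s * nrm U τ (comb U K ρ hρ c) + η := by
  refine comb_bound U K ρ hρ (fun _ => τ) σ hs hT hx c (fun η' hη' => ?_) hη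
  exact ((mean_nrm U hU K ρ hρ τ σ hσ c).eventually_lt_const
    (lt_add_of_pos_right _ hη')).mono fun ε h => h.le

/-- the coefficients for the column orthogonality -/
theorem nrm_col (hirr : ∀ k ∈ K, (ρ k).IsIrreducible)
    (hne : ∀ k ∈ K, ∀ l ∈ K, k ≠ l → IsEmpty ((ρ k).Equiv (ρ l)))
    (hsum : ∑ k ∈ K, n k ^ 2 = Nat.card (GK F ⧸ U)) (g : GK F) (u : ℂ) (hu1 : ‖u‖ = 1) :
    nrm U τ (comb U K ρ hρ fun k => (u * (ρ k).character g).re) ≤ heightFactor τ := by
  classical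
  let _ : Fintype (GK F ⧸ U) := Fintype.ofFinite _
  set r : ∀ k, Representation ℂ (GK F ⧸ U) (Fin (n k) → ℂ) := fun k => qrep U (ρ k) (hρ k)
    with hr
  have hirr' : ∀ k ∈ K, (r k).IsIrreducible := fun k hk => qrep_irr U (ρ k) (hρ k) (hirr k hk)
  have hne' : ∀ k ∈ K, ∀ l ∈ K, k ≠ l → IsEmpty ((r k).Equiv (r l)) := by
    intro k hk l hl hkl
    rw [← not_nonempty_iff, hr, qrep_equiv U (ρ k) (hρ k) (ρ l) (hρ l), not_nonempty_iff]
    exact hne k hk l hl hkl
  refine (nrm_le U τ _).trans ?_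
  have h2 : avR U (fun q => ‖comb U K ρ hρ (fun k => (u * (ρ k).character g).re) q‖) ≤ 1 := by
    have h3 := comb_le K r hirr' hne' hsum (QuotientGroup.mk g) u hu1
    have e3 : ∀ q, comb U K ρ hρ (fun k => (u * (ρ k).character g).re) q =
        ∑ k ∈ K, (((u * (r k).character (QuotientGroup.mk g)).re : ℝ) : ℂ) *
          (r k).character q⁻¹ := fun q => rfl
    unfold avR
    rw [finsum_eq_sum_of_fintype]
    simp only [e3]
    have h0 : (0 : ℝ) < Nat.card (GK F ⧸ U) := by exact_mod_cast Nat.card_pos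
    calc (Nat.card (GK F ⧸ U) : ℝ)⁻¹ * ∑ q, ‖∑ k ∈ K,
          (((u * (r k).character (QuotientGroup.mk g)).re : ℝ) : ℂ) * (r k).character q⁻¹‖
        ≤ (Nat.card (GK F ⧸ U) : ℝ)⁻¹ * Nat.card (GK F ⧸ U) :=
          mul_le_mul_of_nonneg_left h3 (by positivity)
      _ = 1 := inv_mul_cancel₀ h0.ne'
  have h4 : (0 : ℝ) ≤ if τ = 0 then 1 else 2 / Real.pi := by
    have := Real.pi_pos
    split_ifs <;> positivity
  have h5 : heightFactor τ = if τ = 0 then 1 else 2 / Real.pi := by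
    unfold heightFactor
    split_ifs <;> rfl
  rw [h5]
  calc (if τ = 0 then 1 else 2 / Real.pi) *
        avR U (fun q => ‖comb U K ρ hρ (fun k => (u * (ρ k).character g).re) q‖)
      ≤ (if τ = 0 then 1 else 2 / Real.pi) * 1 := mul_le_mul_of_nonneg_left h2 h4
    _ = _ := mul_one _

/-- the norm of a complex number as a real part -/
theorem exists_unit (θ : ℂ) : ∃ u : ℂ, ‖u‖ = 1 ∧ (u * θ).re = ‖θ‖ := by
  by_cases h : θ = 0
  · exact ⟨1, norm_one, by rw [h]; simp⟩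
  · refine ⟨conj θ / (‖θ‖ : ℂ), ?_, ?_⟩
    · rw [norm_div, Complex.norm_conj, Complex.norm_real, norm_norm,
        div_self (norm_ne_zero_iff.2 h)]
    · rw [div_mul_eq_mul_div, mul_comm (conj θ) θ, Complex.mul_conj, Complex.normSq_eq_norm_sq,
        ← Complex.ofReal_div, Complex.ofReal_re, sq, mul_div_assoc,
        div_self (norm_ne_zero_iff.2 h), mul_one]

theorem re_theta (g : GK F) (u : ℂ) (y : κ → ℝ) :
    (u * ∑ k ∈ K, (y k : ℂ) * (ρ k).character g).re =
      ∑ k ∈ K, (u * (ρ k).character g).re * y k := by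
  rw [Finset.mul_sum, Complex.re_sum]
  refine Finset.sum_congr rfl fun k _ => ?_
  have e2 : u * ((y k : ℂ) * (ρ k).character g) = ((y k : ℝ) : ℂ) * (u * (ρ k).character g) := by
    ring
  rw [e2, Complex.re_ofReal_mul]
  ring

include hU hρ hσ hs hT hx in
/-- bounded sizes -/
theorem bdd_size : ∃ C : ℝ, ∀ᶠ ε : ℝ in 𝓝[>] 0, ∀ k ∈ K, |x k ε| ≤ C := by
  classical
  have h1 : ∀ k ∈ K, ∀ᶠ ε : ℝ in 𝓝[>] 0, |x k ε| ≤
      s * nrm U τ (comb U K ρ hρ (fun l => if l = k then 1 else 0)) + 1 := by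
    intro k hk
    refine (sup1 U hU K ρ hρ τ σ hσ hs hT hx (fun l => if l = k then 1 else 0)
      one_pos).mono fun ε hε => ?_
    have h4 : ∑ l ∈ K, (if l = k then (1 : ℝ) else 0) * x l ε = x k ε := by
      rw [Finset.sum_eq_single k]
      · simp
      · intro l _ hl
        simp [hl]
      · intro h
        exact absurd hk h
    rw [h4] at hε
    exact hε
  refine ⟨∑ k ∈ K, (s * nrm U τ (comb U K ρ hρ (fun l => if l = k then 1 else 0)) + 1), ?_⟩
  have h2 : ∀ᶠ ε : ℝ in 𝓝[>] 0, ∀ k ∈ K, |x k ε| ≤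
      s * nrm U τ (comb U K ρ hρ (fun l => if l = k then 1 else 0)) + 1 :=
    (K.eventually_all).2 h1
  refine h2.mono fun ε hε k hk => (hε k hk).trans ?_
  refine Finset.single_le_sum (f := fun k => s * nrm U τ (comb U K ρ hρ
    (fun l => if l = k then 1 else 0)) + 1) (fun l _ => ?_) hk
  have := nrm_nonneg U τ (comb U K ρ hρ (fun j => if j = l then 1 else 0))
  positivity

include hU hρ hσ hs hT hx in
/-- **Complete families: the sup-norm inequality without continuation.** -/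
theorem complete1 (hirr : ∀ k ∈ K, (ρ k).IsIrreducible)
    (hne : ∀ k ∈ K, ∀ l ∈ K, k ≠ l → IsEmpty ((ρ k).Equiv (ρ l)))
    (hsum : ∑ k ∈ K, n k ^ 2 = Nat.card (GK F ⧸ U)) {η : ℝ} (hη : 0 < η) :
    ∀ᶠ ε : ℝ in 𝓝[>] 0, ∀ g, ‖∑ k ∈ K, (x k ε : ℂ) * (ρ k).character g‖ ≤
      s * heightFactor τ + η := by
  classical
  let _ : Fintype (GK F ⧸ U) := Fintype.ofFinite _
  -- it is enough to consider one class
  have hone : ∀ g : GK F, ∀ᶠ ε : ℝ in 𝓝[>] 0,
      ‖∑ k ∈ K, (x k ε : ℂ) * (ρ k).character g‖ ≤ s * heightFactor τ + η := by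
    intro g
    by_contra hcon
    rw [not_eventually] at hcon
    obtain ⟨C, hbd⟩ := bdd_size U hU K ρ hρ τ σ hσ hs hT hx
    obtain ⟨𝒰, h𝒰, hU2⟩ : ∃ 𝒰 : Ultrafilter ℝ, (𝒰 : Filter ℝ) ≤ 𝓝[>] 0 ∧
        ∀ᶠ ε in (𝒰 : Filter ℝ), ¬ ‖∑ k ∈ K, (x k ε : ℂ) * (ρ k).character g‖ ≤
          s * heightFactor τ + η := by
      have hne' : (𝓝[>] (0 : ℝ) ⊓ 𝓟 {ε | ¬ ‖∑ k ∈ K, (x k ε : ℂ) * (ρ k).character g‖ ≤
          s * heightFactor τ + η}).NeBot := frequently_iff_neBot.1 hcon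
      refine ⟨Ultrafilter.of (𝓝[>] (0 : ℝ) ⊓ 𝓟 {ε | ¬ ‖∑ k ∈ K, (x k ε : ℂ) *
        (ρ k).character g‖ ≤ s * heightFactor τ + η}),
        (Ultrafilter.of_le _).trans inf_le_left, ?_⟩
      have h1 : ((Ultrafilter.of (𝓝[>] (0 : ℝ) ⊓
          𝓟 {ε | ¬ ‖∑ k ∈ K, (x k ε : ℂ) * (ρ k).character g‖ ≤ s * heightFactor τ + η}) :
          Ultrafilter ℝ) : Filter ℝ) ≤
          𝓟 {ε | ¬ ‖∑ k ∈ K, (x k ε : ℂ) * (ρ k).character g‖ ≤ s * heightFactor τ + η} :=
        (Ultrafilter.of_le _).trans inf_le_right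
      exact h1 (mem_principal_self _)
    have hex : ∀ k : κ, ∃ y : ℝ, k ∈ K → Tendsto (x k) 𝒰 (𝓝 y) := by
      intro k
      by_cases hk : k ∈ K
      · have hcomp : IsCompact (Set.Icc (-C) C) := isCompact_Icc
        have hmem : (𝒰.map (x k) : Filter ℝ) ≤ 𝓟 (Set.Icc (-C) C) := by
          rw [le_principal_iff]
          exact (hbd.filter_mono h𝒰).mono fun ε hε => abs_le.1 (hε k hk)
        obtain ⟨y, -, hy⟩ := hcomp.ultrafilter_le_nhds (𝒰.map (x k)) hmem
        exact ⟨y, fun _ => hy⟩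
      · exact ⟨0, fun h => absurd h hk⟩
    choose y hy using hex
    set θ : ℂ := ∑ k ∈ K, (y k : ℂ) * (ρ k).character g with hθ
    have hlim : Tendsto (fun ε => ‖∑ k ∈ K, (x k ε : ℂ) * (ρ k).character g‖) 𝒰 (𝓝 ‖θ‖) := by
      refine Tendsto.norm (tendsto_finsetSum K fun k hk => ?_)
      exact ((Complex.continuous_ofReal.tendsto _).comp (hy k hk)).mul_const _
    have hge : s * heightFactor τ + η ≤ ‖θ‖ :=
      ge_of_tendsto hlim (hU2.mono fun ε hε => (not_le.1 hε).le)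
    have hle : ‖θ‖ ≤ s * heightFactor τ := by
      obtain ⟨u, hu1, hu2⟩ := exists_unit θ
      refine le_of_forall_pos_le_add fun η' hη' => ?_
      have h1 := sup1 U hU K ρ hρ τ σ hσ hs hT hx (fun k => (u * (ρ k).character g).re) hη'
      have h2 : Tendsto (fun ε => |∑ k ∈ K, (u * (ρ k).character g).re * x k ε|) 𝒰
          (𝓝 |∑ k ∈ K, (u * (ρ k).character g).re * y k|) :=
        (tendsto_finsetSum K fun k hk => (hy k hk).const_mul _).abs
      have h3 := le_of_tendsto h2 (h1.filter_mono h𝒰)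
      rw [← re_theta K ρ g u y, hu2, abs_of_nonneg (norm_nonneg _)] at h3
      refine h3.trans ?_
      have h4 := nrm_col U K ρ hρ τ hirr hne hsum g u hu1
      have h5 := mul_le_mul_of_nonneg_left h4 hs
      linarith
    linarith
  have hall : ∀ᶠ ε : ℝ in 𝓝[>] 0, ∀ q : GK F ⧸ U,
      ‖∑ k ∈ K, (x k ε : ℂ) * (ρ k).character q.out‖ ≤ s * heightFactor τ + η :=
    eventually_all.2 fun q => hone q.out
  refine hall.mono fun ε hε g => ?_
  have h1 := hε (QuotientGroup.mk g)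
  have h2 : ∀ k, (ρ k).character (QuotientGroup.mk g : GK F ⧸ U).out = (ρ k).character g := by
    intro k
    have h3 : ∀ g : GK F, (ρ k).character g = (qrep U (ρ k) (hρ k)).character
        (QuotientGroup.mk g) := fun g => rfl
    rw [h3, h3, QuotientGroup.out_eq']
  simp only [h2] at h1
  exact h1

/-- a lower bound of the nonzero values of an irreducible character -/
theorem nrm_flat {k : κ} (hk : (ρ k).IsIrreducible) {c : ℝ} (hc : 0 < c)
    (h : ∀ g, (ρ k).character g ≠ 0 → c ≤ ‖(ρ k).character g‖) :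
    nrm U τ (comb U {k} ρ hρ fun _ => 1) ≤ heightFactor τ / c := by
  classical
  let _ : Fintype (GK F ⧸ U) := Fintype.ofFinite _
  have h5 : heightFactor τ = if τ = 0 then 1 else 2 / Real.pi := by
    unfold heightFactor
    split_ifs <;> rfl
  refine (nrm_le U τ _).trans ?_
  rw [← h5]
  have hh : 0 ≤ heightFactor τ := by
    rw [h5]
    have := Real.pi_pos
    split_ifs <;> positivity
  rw [div_eq_mul_inv]
  refine mul_le_mul_of_nonneg_left ?_ hh
  have hsq := sq_one U ρ hρ hk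
  have h1 : ∀ q, ‖comb U {k} ρ hρ (fun _ => 1) q‖ ≤ c⁻¹ * ‖(chF U ρ hρ k).f q‖ ^ 2 := by
    intro q
    obtain ⟨g, hg⟩ := QuotientGroup.mk_surjective q⁻¹
    have h3 : (chF U ρ hρ k).f q = (ρ k).character g := by
      change (qrep U (ρ k) (hρ k)).character q⁻¹ = _
      rw [← hg]
      rfl
    have h4 : comb U {k} ρ hρ (fun _ => 1) q = (ρ k).character g := by
      unfold comb
      rw [Finset.sum_singleton, Complex.ofReal_one, one_mul]
      exact h3
    rw [h3, h4]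
    by_cases h0 : (ρ k).character g = 0
    · rw [h0]
      simp
    · have h6 := h g h0
      have h7 : 0 < ‖(ρ k).character g‖ := norm_pos_iff.2 h0
      rw [inv_mul_eq_div, le_div_iff₀ hc, sq]
      exact mul_le_mul_of_nonneg_left h6 h7.le
  have h2 : avR U (fun q => ‖comb U {k} ρ hρ (fun _ => 1) q‖) ≤
      avR U (fun q => c⁻¹ * ‖(chF U ρ hρ k).f q‖ ^ 2) := by
    unfold avR
    rw [finsum_eq_sum_of_fintype, finsum_eq_sum_of_fintype]
    exact mul_le_mul_of_nonneg_left (Finset.sum_le_sum fun q _ => h1 q) (by positivity)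
  refine h2.trans (le_of_eq ?_)
  rw [avR_const_mul]
  have h3 : avR U (fun q => ‖(chF U ρ hρ k).f q‖ ^ 2) = 1 := hsq
  rw [h3, mul_one]

end

section
variable {K : Type} [Field K] [NumberField K] {l : ℕ} {X : Set (MvPolynomial (Fin l) (𝓞 K))}
  {d m N : ℕ} {V : Type} [AddCommGroup V] [Module ℚ V] [FiniteDimensional ℚ V]
  {ρ : Representation ℚ (GK K) V}

/-- the two norms agree -/
theorem hnrm (U : Subgroup (GK K)) [U.Normal] [Finite (GK K ⧸ U)] {κ : Type} [Fintype κ]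
    {n : κ → ℕ} (χ : ∀ k, Representation ℂ (GK K) (Fin (n k) → ℂ))
    (hχ : ∀ k, ∀ u ∈ U, χ k u = 1) (τ : ℝ) (c : κ → ℝ) :
    nrm U τ (comb U Finset.univ χ hχ c) =
      meanNorm U τ (fun g => ∑ k, (c k : ℂ) * (χ k).character g) := by
  classical
  let _ : Fintype (GK K ⧸ U) := Fintype.ofFinite _
  have e1 : ∀ q : GK K ⧸ U,
      comb U Finset.univ χ hχ c q⁻¹ = ∑ k, (c k : ℂ) * (χ k).character q.out := by
    intro q
    unfold comb
    refine Finset.sum_congr rfl fun k _ => ?_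
    rw [inv_inv]
    congr 1
    conv_lhs => rw [← QuotientGroup.out_eq' q]
    rfl
  have e2 : ∑ᶠ q, |(comb U Finset.univ χ hχ c q).re| =
      ∑ᶠ q : GK K ⧸ U, |(∑ k, (c k : ℂ) * (χ k).character q.out).re| := by
    rw [finsum_eq_sum_of_fintype, finsum_eq_sum_of_fintype, ← Equiv.sum_comp (Equiv.inv _)]
    exact Finset.sum_congr rfl fun q _ => by rw [Equiv.inv_apply, e1]
  have e3 : ∑ᶠ q, ‖comb U Finset.univ χ hχ c q‖ =
      ∑ᶠ q : GK K ⧸ U, ‖∑ k, (c k : ℂ) * (χ k).character q.out‖ := by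
    rw [finsum_eq_sum_of_fintype, finsum_eq_sum_of_fintype, ← Equiv.sum_comp (Equiv.inv _)]
    exact Finset.sum_congr rfl fun q _ => by rw [Equiv.inv_apply, e1]
  unfold nrm meanNorm avR
  rw [e2, e3]
  split_ifs with h
  · exact inv_mul_eq_div _ _
  · rw [inv_mul_eq_div, mul_div_assoc]

/-- representations that are trivial on an open normal subgroup -/
theorem isArtin_of {U : Subgroup (GK K)} (hU : IsOpen (U : Set (GK K))) {n : ℕ}
    {χ : Representation ℂ (GK K) (Fin n → ℂ)} (h : ∀ u ∈ U, χ u = 1) : IsArtin χ := ⟨U, hU, h⟩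

/-- **The sup-norm inequality for the defects.** -/
theorem defectsSupNorm (hmd : m ≤ d) (hpart : IsPart X d m N ρ) :
    DefectsSupNorm X d m N ρ := by
  classical
  have hi : 2 * m ≤ 2 * d := by omega
  choose σ hσ using exists_isFrob (F := K)
  obtain ⟨hρ, hV⟩ := hpart
  have hgood : ∀ᶠ v in cofinite, |tF X d (2 * m) N K v - ch ρ (σ v)⁻¹| ≤
      (N - Module.finrank ℚ V : ℕ) := by
    refine hV.mono fun v hv => ?_
    obtain ⟨α, h1, h2⟩ := hv (σ v) (hσ v)
    exact tF_sub_le (ρ := ρ) hi (σ := σ v) h1 h2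
  set s : ℕ := N - Module.finrank ℚ V with hs
  have hT : ∀ v, |tC ρ X d (2 * m) N s σ v| ≤ (s : ℝ) := fun v => abs_tC _ _ _ _ _ _ _ _
  intro U _ hU κ _ r χ τ hχ
  have hfin : Finite (GK K ⧸ U) := Subgroup.quotient_finite_of_isOpen U hU
  have hmain : ∀ B : κ → HeightOneSpectrum (𝓞 K) → ℂ[X],
      (∀ k, IsTwistedSystem X d (2 * m) N (χ k) τ (B k)) →
      (∀ k, ∀ᶠ ε : ℝ in 𝓝[>] 0, LFun (B k) (edgePoint (2 * m) τ + ε) ≠ 0) ∧
      ∀ k ∈ (Finset.univ : Finset κ), Tendsto (fun ε : ℝ =>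
        (EP (nm K) ε fun v => tC ρ X d (2 * m) N s σ v * RR (χ k) τ σ v) / lam ε -
        (fun (k : κ) (ε : ℝ) => size (2 * m) τ (B k) ε - expected ρ (χ k) τ) k ε)
        (𝓝[>] 0) (𝓝 0) := by
    intro B hB
    have h1 := fun k => tw_C' (s := s) hi hσ hgood hρ (χ k) (isArtin_of hU (hχ k)) τ (B k) (hB k)
    exact ⟨fun k => (h1 k).1, fun k _ => (h1 k).2⟩
  refine ⟨fun B hB => ?_, fun δ hδ => ?_⟩
  · obtain ⟨h1, h2⟩ := hmain B hB
    refine ⟨h1, fun c η hη => ?_, fun hc η hη => ?_⟩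
    · have h3 := sup1 U hU Finset.univ χ hχ τ σ hσ (Nat.cast_nonneg s) hT h2 c hη
      rw [hnrm] at h3
      exact h3
    · obtain ⟨hirr, hne, hsum⟩ := hc
      exact complete1 U hU Finset.univ χ hχ τ σ hσ (Nat.cast_nonneg s) hT h2
        (fun k _ => hirr k) (fun k _ l _ hkl => hne k l hkl) hsum hη
  · choose B hB hlim using hδ
    obtain ⟨h1, h2⟩ := hmain B hB
    have h3 : ∀ k, Tendsto (fun ε : ℝ => size (2 * m) τ (B k) ε - expected ρ (χ k) τ) (𝓝[>] 0)
        (𝓝 (-(δ k : ℝ))) := by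
      intro k
      have h4 := (hlim k).sub_const (expected ρ (χ k) τ : ℝ)
      have e : ((expected ρ (χ k) τ : ℝ) - δ k - expected ρ (χ k) τ) = -(δ k : ℝ) := by ring
      rw [e] at h4
      exact h4
    refine ⟨fun c => ?_, fun hc g => ?_⟩
    · have h4 := lim_le (K := Finset.univ) (fun k _ => h3 k) c (fun η hη =>
        sup1 U hU Finset.univ χ hχ τ σ hσ (Nat.cast_nonneg s) hT h2 c hη)
      rw [hnrm] at h4
      exact h4
    · obtain ⟨hirr, hne, hsum⟩ := hc
      refine le_of_forall_pos_le_add fun η hη => ?_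
      have h4 := complete1 U hU Finset.univ χ hχ τ σ hσ (Nat.cast_nonneg s) hT h2
        (fun k _ => hirr k) (fun k _ l _ hkl => hne k l hkl) hsum hη
      have h5 : Tendsto (fun ε : ℝ => ‖∑ k, ((size (2 * m) τ (B k) ε -
          expected ρ (χ k) τ : ℝ) : ℂ) * (χ k).character g‖) (𝓝[>] 0)
          (𝓝 ‖∑ k, ((-(δ k : ℝ) : ℝ) : ℂ) * (χ k).character g‖) := by
        refine Tendsto.norm (tendsto_finsetSum _ fun k _ => ?_)
        exact ((Complex.continuous_ofReal.tendsto _).comp (h3 k)).mul_const _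
      have h6 := le_of_tendsto h5 (h4.mono fun ε hε => hε g)
      have e : ∑ k, ((-(δ k : ℝ) : ℝ) : ℂ) * (χ k).character g =
          -∑ k, (δ k : ℂ) * (χ k).character g := by
        rw [← Finset.sum_neg_distrib]
        refine Finset.sum_congr rfl fun k _ => ?_
        push_cast
        ring
      rw [e, norm_neg] at h6
      exact h6

/-- **Characters with large values.** -/
theorem largeValues (hmd : m ≤ d) (hpart : IsPart X d m N ρ) : LargeValues X d m N ρ := by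
  classical
  have hsup := defectsSupNorm hmd hpart
  intro r χ c τ hA hirr hc hval
  obtain ⟨U, hUn, hU, hχ⟩ := exists_common (κ := Unit) (n := fun _ => r) (fun _ => χ)
    fun _ => hA
  have hfin : Finite (GK K ⧸ U) := Subgroup.quotient_finite_of_isOpen U hU
  have hn : meanNorm U τ (fun g => ∑ _k : Unit, (((1 : ℝ) : ℝ) : ℂ) * χ.character g) ≤
      heightFactor τ / c := by
    rw [← hnrm U (fun _ : Unit => χ) hχ τ (fun _ => 1)]
    exact nrm_flat U (fun _ : Unit => χ) hχ τ (k := ()) hirr hc hval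
  have hs0 : (0 : ℝ) ≤ ((N - Module.finrank ℚ V : ℕ) : ℝ) := Nat.cast_nonneg _
  obtain ⟨h1, h2⟩ := hsup U hU Unit (fun _ => r) (fun _ => χ) τ hχ
  have hb := mul_le_mul_of_nonneg_left hn hs0
  rw [← mul_div_assoc] at hb
  refine ⟨fun B hB η hη => ?_, fun δ hδ => ?_⟩
  · refine ((h1 (fun _ => B) fun _ => hB).2.1 (fun _ => 1) η hη).mono fun ε hε => ?_
    simp only [Finset.univ_unique, Finset.sum_const, Finset.card_singleton, one_smul,
      one_mul] at hε
    simp only [Finset.univ_unique, Finset.sum_const, Finset.card_singleton, one_smul] at hb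
    linarith
  · have h3 := (h2 (fun _ => δ) fun _ => hδ).1 fun _ => 1
    simp only [Finset.univ_unique, Finset.sum_const, Finset.card_singleton, one_smul,
      one_mul] at h3
    simp only [Finset.univ_unique, Finset.sum_const, Finset.card_singleton, one_smul] at hb
    have h4 : |(δ : ℝ)| ≤ ((N - Module.finrank ℚ V : ℕ) : ℝ) * heightFactor τ / c := by
      refine h3.trans (le_trans (le_of_eq ?_) hb)
      simp
    refine ⟨h4, fun hlt => ?_⟩
    have h5 : ((N - Module.finrank ℚ V : ℕ) : ℝ) * heightFactor τ / c < 1 := by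
      rw [div_lt_one hc]
      exact hlt
    have h6 : |(δ : ℝ)| < 1 := h4.trans_lt h5
    have h7 : |δ| < 1 := by exact_mod_cast h6
    exact Int.abs_lt_one_iff.1 h7

end

end Pool.Agent.TH526.DS
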