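import Pool.Agent.TH526.DS.Main

/-! Irreducible characters with many zeros. -/

set_option autoImplicit false

namespace Pool.Agent.TH526.DS

open Complex Filter Topology ComplexConjugate NumberField IsDedekindDomain Polynomial
  Pool.Agent.W401.Cheb Pool.Agent.W540.BE Pool.Agent.W353.L1 Pool.Agent.W353.AT
open Pool.Agent.H341R2 (lam lam_tendsto sysK)

section
variable {Q : Type*} [Group Q] [Fintype Q]

open Classical in
/-- the sum over a normal subgroup that acts non-trivially -/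
theorem sum_normal_zero {m : ℕ} (ρ : Representation ℂ Q (Fin m → ℂ)) (hi : ρ.IsIrreducible)
    (A : Subgroup Q) [A.Normal] (hne : ∃ a ∈ A, ρ a ≠ 1) :
    ∑ x, (if x ∈ A then (1 : ℂ) else 0) • ρ x = 0 := by
  obtain ⟨l, hl, -⟩ := central ρ hi (fun x => if x ∈ A then (1 : ℂ) else 0) (fun a x => by
    have : x * a * x⁻¹ ∈ A ↔ a ∈ A := by
      constructor
      · intro h
        have h1 := (inferInstance : A.Normal).conj_mem _ h x⁻¹
        have e : x⁻¹ * (x * a * x⁻¹) * x⁻¹⁻¹ = a := by group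
        rwa [e] at h1
      · intro h
        exact (inferInstance : A.Normal).conj_mem _ h x
    simp only [this])
  obtain ⟨a, ha, hane⟩ := hne
  have h1 : ρ a * ∑ x, (if x ∈ A then (1 : ℂ) else 0) • ρ x =
      ∑ x, (if x ∈ A then (1 : ℂ) else 0) • ρ x := by
    rw [Finset.mul_sum, ← Equiv.sum_comp (Equiv.mulLeft a)
      (fun x => (if x ∈ A then (1 : ℂ) else 0) • ρ x)]
    refine Finset.sum_congr rfl fun x _ => ?_
    have e1 : (Equiv.mulLeft a x ∈ A) ↔ x ∈ A := by
      change a * x ∈ A ↔ x ∈ A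
      exact A.mul_mem_cancel_left ha
    have e2 : Equiv.mulLeft a x = a * x := rfl
    simp only [e1]
    rw [e2, map_mul, mul_smul_comm]
  rw [hl] at h1 ⊢
  have h2 : l • (ρ a - 1) = 0 := by
    rw [smul_sub, sub_eq_zero]
    rw [mul_smul_comm, mul_one] at h1
    exact h1
  rcases smul_eq_zero.1 h2 with h | h
  · rw [h, zero_smul]
  · exact absurd (sub_eq_zero.1 h) hane

open Classical in
theorem char_sum_zero {m : ℕ} (ρ : Representation ℂ Q (Fin m → ℂ)) (hi : ρ.IsIrreducible)
    (A : Subgroup Q) [A.Normal] (hne : ∃ a ∈ A, ρ a ≠ 1) (g : Q) :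
    ∑ x, (if x ∈ A then (1 : ℂ) else 0) * ρ.character (g * x) = 0 := by
  have h := sum_normal_zero ρ hi A hne
  have h1 := congrArg (fun S => LinearMap.trace ℂ (Fin m → ℂ) (ρ g * S)) h
  simp only [mul_zero, map_zero] at h1
  rw [Finset.mul_sum, map_sum] at h1
  refine Eq.trans (Finset.sum_congr rfl fun x _ => ?_) h1
  rw [mul_smul_comm, map_smul, smul_eq_mul, ← map_mul]
  rfl

/-- **A character that is not trivial on `A` vanishes at `g` if `g` is conjugate to `g a` for all
`a ∈ A`.** -/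
theorem vanish {m : ℕ} (ρ : Representation ℂ Q (Fin m → ℂ)) (hi : ρ.IsIrreducible)
    (A : Subgroup Q) [A.Normal] (hne : ∃ a ∈ A, ρ a ≠ 1) (g : Q)
    (hg : ∀ a ∈ A, ∃ x, x * g * x⁻¹ = g * a) : ρ.character g = 0 := by
  classical
  have h := char_sum_zero ρ hi A hne g
  have h1 : ∀ x, (if x ∈ A then (1 : ℂ) else 0) * ρ.character (g * x) =
      (if x ∈ A then (1 : ℂ) else 0) * ρ.character g := by
    intro x
    by_cases hx : x ∈ A
    · obtain ⟨y, hy⟩ := hg x hx
      rw [← hy, Representation.char_conj]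
    · rw [if_neg hx, zero_mul, zero_mul]
  rw [Finset.sum_congr rfl fun x _ => h1 x, ← Finset.sum_mul, mul_eq_zero] at h
  rcases h with h | h
  · exfalso
    rw [Finset.sum_boole, Nat.cast_eq_zero, Finset.card_eq_zero, Finset.filter_eq_empty_iff] at h
    exact h (Finset.mem_univ 1) A.one_mem
  · exact h

end

section
variable {F : Type} [Field F] [NumberField F]
  (U : Subgroup (GK F)) [U.Normal] [Finite (GK F ⧸ U)]
  {κ : Type*} {n : κ → ℕ}
  (ρ : ∀ k, Representation ℂ (GK F) (Fin (n k) → ℂ)) (hρ : ∀ k, ∀ u ∈ U, ρ k u = 1)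

/-- **The mean absolute value of an irreducible character with many zeros.** -/
theorem avR_supp {k : κ} (hk : (ρ k).IsIrreducible) {p : ℝ}
    (hp : (Nat.card {q : GK F ⧸ U // (chF U ρ hρ k).f q ≠ 0} : ℝ) ≤ p * Nat.card (GK F ⧸ U)) :
    avR U (fun q => ‖(chF U ρ hρ k).f q‖) ≤ Real.sqrt p := by
  classical
  let _ : Fintype (GK F ⧸ U) := Fintype.ofFinite _
  have hc : (0 : ℝ) < Nat.card (GK F ⧸ U) := by exact_mod_cast Nat.card_pos
  have hsq := sq_one U ρ hρ hk
  unfold CF.sq avR at hsq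
  rw [finsum_eq_sum_of_fintype, inv_mul_eq_iff_eq_mul₀ hc.ne', mul_one] at hsq
  unfold avR
  rw [finsum_eq_sum_of_fintype]
  set f : GK F ⧸ U → ℂ := (chF U ρ hρ k).f with hf
  set S : Finset (GK F ⧸ U) := Finset.univ.filter fun q => f q ≠ 0 with hS
  have h1 : ∑ q, ‖f q‖ = ∑ q ∈ S, ‖f q‖ := by
    refine (Finset.sum_subset (Finset.filter_subset _ _) fun q _ hq => ?_).symm
    have : f q = 0 := by
      by_contra h
      exact hq (Finset.mem_filter.2 ⟨Finset.mem_univ _, h⟩)
    rw [this, norm_zero]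
  have h2 : (∑ q ∈ S, ‖f q‖) ^ 2 ≤ (S.card : ℝ) * ∑ q ∈ S, ‖f q‖ ^ 2 :=
    sq_sum_le_card_mul_sum_sq
  have h3 : ∑ q ∈ S, ‖f q‖ ^ 2 ≤ Nat.card (GK F ⧸ U) := by
    rw [← hsq]
    exact Finset.sum_le_sum_of_subset_of_nonneg (Finset.filter_subset _ _)
      fun q _ _ => sq_nonneg _
  have h4 : (S.card : ℝ) = Nat.card {q : GK F ⧸ U // f q ≠ 0} := by
    rw [Nat.card_eq_fintype_card, Fintype.card_subtype]
  rw [← h4] at hp
  have h5 : (∑ q ∈ S, ‖f q‖) ^ 2 ≤ p * (Nat.card (GK F ⧸ U) : ℝ) ^ 2 := by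
    refine h2.trans ((mul_le_mul hp h3 (Finset.sum_nonneg fun _ _ => sq_nonneg _)
      ((Nat.cast_nonneg _).trans hp)).trans (le_of_eq (by ring)))
  rw [h1, inv_mul_eq_div]
  refine Real.le_sqrt_of_sq_le ?_
  rw [div_pow, div_le_iff₀ (by positivity)]
  exact h5

/-- the value at the inverse -/
theorem chF_f (k : κ) (g : GK F) :
    (chF U ρ hρ k).f (QuotientGroup.mk g) = (ρ k).character g⁻¹ := rfl

/-- **The mean absolute value of an irreducible character that vanishes outside a subgroup.** -/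
theorem avR_vanish {k : κ} (hk : (ρ k).IsIrreducible) (H : Subgroup (GK F))
    (h0 : ∀ g, g ∉ H → (ρ k).character g = 0) :
    avR U (fun q => ‖(chF U ρ hρ k).f q‖) ≤ Real.sqrt (1 / H.index) := by
  classical
  let _ : Fintype (GK F ⧸ U) := Fintype.ofFinite _
  refine avR_supp U ρ hρ hk ?_
  have hn : 0 < n k := dim_pos U ρ hρ hk
  have hUH : U ≤ H := by
    intro u hu
    by_contra hcon
    have h1 := h0 u hcon
    have h2 : (ρ k).character u = n k := by
      unfold Representation.character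
      rw [hρ k u hu, LinearMap.trace_one, Module.finrank_fin_fun]
    rw [h2] at h1
    have : (n k : ℂ) ≠ 0 := by exact_mod_cast hn.ne'
    exact this h1
  set A : Subgroup (GK F ⧸ U) := H.map (QuotientGroup.mk' U) with hA
  have hAH : A.index = H.index := by
    rw [hA]
    exact Subgroup.index_map_eq H (QuotientGroup.mk'_surjective U)
      (by rw [QuotientGroup.ker_mk']; exact hUH)
  have hcard : Nat.card {q : GK F ⧸ U // (chF U ρ hρ k).f q ≠ 0} ≤ Nat.card A := by
    refine Nat.card_le_card_of_injective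
      (fun q => (⟨q.1, ?_⟩ : A)) (fun q q' h => ?_)
    · obtain ⟨g, hg⟩ := QuotientGroup.mk_surjective q.1
      have h1 := q.2
      rw [← hg, chF_f] at h1
      have h2 : g⁻¹ ∈ H := by
        by_contra hcon
        exact h1 (h0 _ hcon)
      rw [hA, Subgroup.mem_map]
      exact ⟨g, by simpa using H.inv_mem h2, hg⟩
    · have h3 := congrArg Subtype.val h
      exact Subtype.ext h3
  have hmul := A.card_mul_index
  rw [hAH] at hmul
  have hi : 0 < H.index := by
    rw [← hAH]
    exact Nat.pos_of_ne_zero A.index_ne_zero_of_finite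
  have hi' : (0 : ℝ) < H.index := by exact_mod_cast hi
  have hmul' : (Nat.card A : ℝ) * H.index = Nat.card (GK F ⧸ U) := by exact_mod_cast hmul
  rw [one_div, inv_mul_eq_div, le_div_iff₀ hi', ← hmul']
  exact mul_le_mul_of_nonneg_right (by exact_mod_cast hcard) hi'.le

/-- **Limits for one irreducible representation.** -/
theorem lim_abs_le (hU : IsOpen (U : Set (GK F))) {T : HeightOneSpectrum (𝓞 F) → ℝ} {s : ℝ}
    (hs : 0 ≤ s) (hT : ∀ v, |T v| ≤ s) {σ : HeightOneSpectrum (𝓞 F) → GK F}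
    (hσ : ∀ v, IsFrob v (σ v)) {τ : ℝ} (x : MRep (GK F)) (hx : ∀ u ∈ U, x.2 u = 1) {δ A : ℝ}
    (h : Lim T σ x τ δ)
    (hA : avR U (fun q => ‖(chF U (fun _ : Unit => x.2) (fun _ => hx) ()).f q‖) ≤ A) :
    |δ| ≤ s * (heightFactor τ * A) := by
  classical
  have h1 : ∀ η : ℝ, 0 < η → ∀ᶠ ε : ℝ in 𝓝[>] 0,
      |∑ k ∈ ({()} : Finset Unit), (1 : ℝ) *
        ((EP (nm F) ε fun v => T v * RR x.2 τ σ v) / lam ε)| ≤
      s * nrm U τ (comb U {()} (fun _ : Unit => x.2) (fun _ => hx) fun _ => 1) + η := by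
    intro η hη
    refine sup1 U hU {()} (fun _ : Unit => x.2) (fun _ => hx) τ σ hσ hs hT
      (x := fun _ ε => (EP (nm F) ε fun v => T v * RR x.2 τ σ v) / lam ε) (fun k _ => ?_)
      (fun _ => 1) hη
    simp only [sub_self]
    exact tendsto_const_nhds
  simp only [Finset.sum_singleton, one_mul] at h1
  have h2 : |δ| ≤ s * nrm U τ (comb U {()} (fun _ : Unit => x.2) (fun _ => hx) fun _ => 1) := by
    refine le_of_forall_pos_le_add fun η hη => ?_
    exact le_of_tendsto (Tendsto.abs h) (h1 η hη)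
  refine h2.trans (mul_le_mul_of_nonneg_left ?_ hs)
  refine (nrm_le U τ _).trans ?_
  have h5 : heightFactor τ = if τ = 0 then 1 else 2 / Real.pi := by
    unfold heightFactor
    split_ifs <;> rfl
  rw [← h5]
  have hh : 0 ≤ heightFactor τ := by
    rw [h5]
    have := Real.pi_pos
    split_ifs <;> positivity
  refine mul_le_mul_of_nonneg_left (le_trans (le_of_eq ?_) hA) hh
  congr 1
  funext q
  unfold comb
  rw [Finset.sum_singleton, Complex.ofReal_one, one_mul]
  rfl

end

end Pool.Agent.TH526.DS
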